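import Pool.Agent.Helper81.RP.Dec
import Pool.Agent.Helper81.Sus2.Defs

/-!
# Other names for the registers of a description
-/

namespace Pool.Agent.Helper31.Ink

open Pool.Agent.Helper65.LinSpace Pool.Agent.Helper78.Mpc
open Pool.Agent.Helper81.Sus2 (Decomp)
open Pool.Agent.Helper81.RP (wd)

/-- CONV. From a description `d` and a number `h`, the header, another description `D` is obtained: for
the name `j`, the number `G h (num j)` gives the answer, if it is even, and otherwise the name for the
description `d`. -/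
def CONV : Prop := ∀ (E : Decomp) (G : ℕ → ℕ → ℕ), LS (fun z : ℕ × ℕ => G z.1 z.2) →
    (∃ c : ℕ, ∀ h x, Nat.log 2 (G h x) ≤ c * (Nat.log 2 h + Nat.log 2 x + 1)) →
    ∃ (E' : Decomp) (K : ℕ), ∀ (w y d : List Bool) (h a s : ℕ), ∃ D : List Bool,
      D.length ≤ 2 * d.length + K * (Nat.log 2 h + 1) ∧
      ∀ j : List Bool, j.length ≤ s → j.head? ≠ some false →
        (G h (num j) % 2 = 0 → E'.Says w y
          (a + K * (Nat.log 2 h + s + Nat.log 2 (d.length + 1) + 1)) D j (wd (G h (num j) / 2))) ∧
        (G h (num j) % 2 = 1 → ∀ v, E.Says w y a d (wd (G h (num j) / 2)) v → E'.Says w y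
          (a + K * (Nat.log 2 h + s + Nat.log 2 (d.length + 1) + 1)) D j v)

end Pool.Agent.Helper31.Ink
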