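import Pool.Agent.Helper31.Ink.Sim
import Pool.Agent.Helper81.Sus3.Defs
import Pool.Agent.Helper92.RE.Good
import Pool.Agent.Helper92.RE.TmB

/-!
# Turing machines on the words `F w y` as machines with messages: messages and lengths
-/

namespace Pool.Agent.Helper31.Ink

open Pool.Agent.Helper65.LinSpace Pool.Agent.Helper78.Mpc Pool.Agent.Helper28.Ram
open Pool.Agent.Helper81.Sus2
open Pool.Agent.Helper92.RE (LD sto pO nO uO vO sto_pos sto_half pO_sto nO_sto uO_sto vO_sto
  adr adr_le nconf_succ head_st length_sto len_le lett_le)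
open Pool.Agent.Helper81.RP (lett wd wf num_wd wd_num wf_eq hd tl hd_eq tl_eq wd_one wd_cons_false
  tl_read hd_read step_of length_wd_le pair_lt)
open Pool.Agent.Helper31.TMS (pos sym AcceptsAt bval_bits run_halt)

variable {k : ℕ} {D : LD} {M : TM k} {code : M.Sym → List Bool}

/-- The number of the steps of the Turing machine whose changes were made. -/
def mT (k n τ : ℕ) : ℕ := (τ - (n + 1) + 1) / (k + 2)

theorem mT_at (k n t : ℕ) {j : ℕ} (hj : j ≤ k) : mT k n (n + 1 + (k + 2) * t + j) = t := by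
  unfold mT
  rw [show n + 1 + (k + 2) * t + j - (n + 1) + 1 = (j + 1) + (k + 2) * t by omega,
    Nat.add_mul_div_left _ _ (by omega), Nat.div_eq_of_lt (by omega), zero_add]

theorem mT_msg (k n t : ℕ) : mT k n (n + 1 + (k + 2) * t + (k + 1)) = t + 1 := by
  unfold mT
  rw [show n + 1 + (k + 2) * t + (k + 1) - (n + 1) + 1 = (k + 2) * (t + 1) by
    rw [mul_add, mul_one]
    omega, Nat.mul_div_cancel_left _ (by omega)]

theorem mT_small {k n τ : ℕ} (h : τ ≤ n) : mT k n τ = 0 := by
  unfold mT
  rw [show τ - (n + 1) + 1 = 1 by omega]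
  exact Nat.div_eq_of_lt (by omega)

theorem mT_mono {k n τ τ' : ℕ} (h : τ ≤ τ') : mT k n τ ≤ mT k n τ' := by
  unfold mT
  exact Nat.div_le_div_right (by omega)

/-- The kinds of times. -/
theorem times (k n τ : ℕ) : τ ≤ n ∨ ∃ t j, j ≤ k + 1 ∧ τ = n + 1 + (k + 2) * t + j := by
  rcases le_or_gt τ n with h | h
  · exact Or.inl h
  · refine Or.inr ⟨(τ - (n + 1)) / (k + 2), (τ - (n + 1)) % (k + 2), ?_, ?_⟩
    · have := Nat.mod_lt (τ - (n + 1)) (show 0 < k + 2 by omega)
      omega
    · have := Nat.div_add_mod (τ - (n + 1)) (k + 2)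
      omega

section

variable {F : List Bool → List Bool} (hF : D.Is F) (hb : code M.blank = [])
  (hc : Function.Injective code)

include hF hb hc

/-- The memory. -/
theorem mem_mach (w y : List Bool) (g : ℕ → Bool) (τ : ℕ) :
    ((machT D M code).conf w y g τ).2 =
      memT code w y (M.run (F w ++ y) (mT k w.length τ)).tape := by
  rcases times k w.length τ with h | ⟨t, j, hj, rfl⟩
  · rw [conf_machA hb w y g h, mT_small h]
    rfl
  · rcases Nat.lt_or_ge k j with h1 | h1
    · obtain rfl : j = k + 1 := by omega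
      rw [conf_msg hF hc (at_all hF hb hc w y g t), mT_msg]
    · obtain ⟨f, _, _, h2⟩ := conf_read hc (at_all hF hb hc w y g t) h1
      rw [h2, mT_at _ _ _ h1]

/-- The times of messages. -/
theorem msg_time (w y : List Bool) (g : ℕ → Bool) (τ : ℕ)
    (h : (machT D M code).msg ((machT D M code).conf w y g τ).1 = true) :
    ∃ t, τ = w.length + 1 + (k + 2) * t + (k + 1) ∧ Changes M (F w ++ y) t := by
  rcases times k w.length τ with h1 | ⟨t, j, hj, rfl⟩
  · rw [conf_machA hb w y g h1, msg_sto (by omega) (by omega)] at h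
    exact absurd h (by simp)
  · rcases Nat.lt_or_ge k j with h1 | h1
    · obtain rfl : j = k + 1 := by omega
      refine ⟨t, rfl, ?_⟩
      rw [conf_msg hF hc (at_all hF hb hc w y g t)] at h
      rw [changes_iff]
      have h2 : decide (msgT M (num (wd (sto 0 (k + 2) w.length (ix (ι := Inf M)
          ((M.run (F w ++ y) t).state, (fun i => (M.run (F w ++ y) t).tape i
            ((M.run (F w ++ y) t).head i)), inputSym (F w ++ y) (M.run (F w ++ y) t).inp))
          (Nat.pair (M.run (F w ++ y) t).inp (hsF (M.run (F w ++ y) t).head))))) = 1) =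
            true := h
      have h3 := of_decide_eq_true h2
      rw [num_wd (sto_pos _ _ _ _ _)] at h3
      unfold msgT eq01 at h3
      rw [pO_sto (by omega), uO_sto (by omega), if_pos rfl, ifz_ne one_ne_zero, selT_eq] at h3
      exact h3
    · obtain ⟨f, hf, _, h2⟩ := conf_read hc (at_all hF hb hc w y g t) h1
      rw [h2, msg_sto hf (by omega)] at h
      exact absurd h (by simp)

/-- The number of messages. -/
theorem msgs_mach (w y : List Bool) (g : ℕ → Bool) (τ τ' : ℕ) :
    (machT D M code).msgs w y g τ τ' ≤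
      ink M (F w ++ y) (mT k w.length τ) (mT k w.length τ') := by
  unfold NBM.msgs ink
  set S := {t : ℕ | mT k w.length τ ≤ t ∧ t < mT k w.length τ' ∧ Changes M (F w ++ y) t}
  have hSf : S.Finite := (Set.finite_lt_nat (mT k w.length τ')).subset fun t h => h.2.1
  have hsub : {i : ℕ | τ ≤ i ∧ i < τ' ∧
      (machT D M code).msg ((machT D M code).conf w y g (i + 1)).1} ⊆
      (fun t => w.length + 1 + (k + 2) * t + k) '' S := by
    rintro i ⟨h1, h2, h3⟩
    obtain ⟨t, ht, h4⟩ := msg_time hF hb hc w y g (i + 1) h3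
    have hi : i = w.length + 1 + (k + 2) * t + k := by omega
    refine ⟨t, ⟨?_, ?_, h4⟩, hi.symm⟩
    · have h5 := mT_mono (k := k) (n := w.length) h1
      rw [hi, mT_at _ _ _ le_rfl] at h5
      exact h5
    · have h5 := mT_mono (k := k) (n := w.length) (show i + 1 ≤ τ' by omega)
      rw [ht, mT_msg] at h5
      omega
  exact (Set.ncard_le_ncard hsub (hSf.image _)).trans (Set.ncard_image_le hSf)

/-- Acceptance. -/
theorem accepts_iff (w y : List Bool) (g : ℕ → Bool) (r : ℕ) :
    (machT D M code).AcceptsAt w y g r ↔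
      ∃ t, r = w.length + 1 + (k + 2) * (t + 1) ∧ AcceptsAt M (F w ++ y) t := by
  unfold NBM.AcceptsAt
  constructor
  · intro h
    rcases times k w.length r with h1 | ⟨t, j, hj, rfl⟩
    · rw [conf_machA hb w y g h1, head_st (by omega)] at h
      omega
    · rcases Nat.lt_or_ge k j with h1 | h1
      · obtain rfl : j = k + 1 := by omega
        rw [conf_msg hF hc (at_all hF hb hc w y g t), head_st (by omega)] at h
        omega
      · obtain ⟨f, hf, h3, h2⟩ := conf_read hc (at_all hF hb hc w y g t) h1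
        rw [h2, head_st hf] at h
        obtain rfl := h3 h
        obtain ⟨f', hf', h4, h5⟩ := at_all hF hb hc w y g t
        rw [add_zero, h4] at h2
        have h6 : (wd (sto f' 1 w.length (ix (fresh M (M.run (F w ++ y) t).state))
            (Nat.pair (M.run (F w ++ y) t).inp
              (hsF (M.run (F w ++ y) t).head)))).head? =
            (wd (sto f (0 + 1) w.length (ix (ι := Inf M) ((M.run (F w ++ y) t).state,
              sJ M (M.run (F w ++ y) t) 0, none)) (Nat.pair (M.run (F w ++ y) t).inp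
              (hsF (M.run (F w ++ y) t).head)))).head? :=
          congrArg (fun c => (Prod.fst c).head?) h2
        have h7 : (wd (sto f' 1 w.length (ix (fresh M (M.run (F w ++ y) t).state))
            (Nat.pair (M.run (F w ++ y) t).inp
              (hsF (M.run (F w ++ y) t).head)))).head? = some true := by
          rw [h6, head_st hf]
          exact h
        rw [head_st hf'] at h7
        obtain ⟨u, rfl, hu⟩ := h5.1 h7
        exact ⟨u, by omega, hu⟩
  · rintro ⟨t, rfl, h⟩
    obtain ⟨f, hf, h4, h5⟩ := at_all hF hb hc w y g (t + 1)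
    rw [h4, head_st hf]
    exact h5.2 ⟨t, rfl, h⟩

/-- States, names and contents are short. -/
theorem fits_mach (B : ℕ) : ∃ K : ℕ, ∀ (w y : List Bool) (g : ℕ → Bool) (t b a : ℕ),
    (F w ++ y).length + 2 ≤ B * (w.length + 1) →
    (∀ u ≤ t, ∀ i, -2 ^ b ≤ (M.run (F w ++ y) u).head i ∧
      (M.run (F w ++ y) u).head i < 2 ^ b) →
    K * (b + (Nat.log 2 w.length + 1)) ≤ a →
    (machT D M code).Fits w y g (w.length + 1 + (k + 2) * t)
      (K * (b + (Nat.log 2 w.length + 1))) a := by
  have := M.finSym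
  obtain ⟨c₁, hc₁⟩ := Pool.Agent.Helper31.TMS.exists_bound fun s : M.Sym => (code s).length
  refine ⟨8 * (2 ^ (k + 1) * (Nat.log 2 B + 5 + k + Nat.card (Inf M))) + 1 + c₁ + 4,
    fun w y g t b a hB hbox ha => ?_⟩
  set l := b + (Nat.log 2 w.length + 1) with hl
  have hl1 : 1 ≤ l := by omega
  set q := Nat.log 2 B + 5 + k + Nat.card (Inf M) with hq
  set e₀ := q * l with he₀
  set e := 2 ^ (k + 1) * e₀ with he
  have hK : (8 * (2 ^ (k + 1) * q) + 1 + c₁ + 4) * l = 8 * e + (1 + c₁ + 4) * l := by
    rw [he, he₀]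
    ring
  have hKl : 8 * e + 1 + c₁ + 4 ≤ (8 * (2 ^ (k + 1) * q) + 1 + c₁ + 4) * l := by
    rw [hK]
    have : 1 + c₁ + 4 ≤ (1 + c₁ + 4) * l := Nat.le_mul_of_pos_right _ hl1
    omega
  have hql : q ≤ e₀ := Nat.le_mul_of_pos_right _ hl1
  have he01 : 2 * e₀ ≤ e := by
    rw [he, pow_succ]
    have : 1 ≤ 2 ^ k := Nat.one_le_two_pow
    nlinarith
  have hee : (2 : ℕ) ^ e₀ ≤ 2 ^ e := Nat.pow_le_pow_right (by norm_num) (by omega)
  -- numbers
  have hx : (F w ++ y).length + 2 ≤ 2 ^ e₀ := by
    refine (len_le hB).trans (Nat.pow_le_pow_right (by norm_num) ?_)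
    rw [he₀]
    refine Nat.mul_le_mul ?_ ?_ <;> omega
  have hn : w.length < 2 ^ e₀ := by
    have h1 : w.length < 2 ^ (Nat.log 2 w.length + 1) := Nat.lt_pow_succ_log_self (by norm_num) _
    refine h1.trans_le (Nat.pow_le_pow_right (by norm_num) ?_)
    have : 1 * l ≤ e₀ := Nat.mul_le_mul_right _ (by omega)
    omega
  have hk : k + 3 < 2 ^ e₀ := by
    refine lt_of_le_of_lt (show k + 3 ≤ e₀ by omega) Nat.lt_two_pow_self
  have hix : ∀ i : Inf M, ix i < 2 ^ e := fun i =>
    (ix_lt i).trans_le ((show Nat.card (Inf M) ≤ e₀ by omega).trans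
      (Nat.lt_two_pow_self.le.trans hee))
  have hz : ∀ u ≤ t, ∀ i, zig ((M.run (F w ++ y) u).head i) < 2 ^ e₀ := by
    intro u hu i
    obtain ⟨h1, h2⟩ := hbox u hu i
    refine (zig_lt h1 h2).trans_le (Nat.pow_le_pow_right (by norm_num) ?_)
    have : 1 * l ≤ e₀ := Nat.mul_le_mul_right _ (by omega)
    omega
  have hinp : ∀ u, (M.run (F w ++ y) u).inp < 2 ^ e₀ := by
    intro u
    have := Pool.Agent.Helper20.TMS.inp_le M (F w ++ y) u
    omega
  have hpair : ∀ u ≤ t, Nat.pair (M.run (F w ++ y) u).inp (hsF (M.run (F w ++ y) u).head) <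
      2 ^ e := by
    intro u hu
    have h1 : hsF (M.run (F w ++ y) u).head < 2 ^ (2 ^ k * e₀) := by
      have h2 := hsL_lt (e := e₀) ((List.finRange k).map fun j =>
        zig ((M.run (F w ++ y) u).head j)) (fun v hv => by
          obtain ⟨j, _, rfl⟩ := List.mem_map.1 hv
          exact hz u hu j)
      rw [List.length_map, List.length_finRange] at h2
      exact h2
    have h2 : (M.run (F w ++ y) u).inp < 2 ^ (2 ^ k * e₀) :=
      (hinp u).trans_le (Nat.pow_le_pow_right (by norm_num)
        (Nat.le_mul_of_pos_left _ (by positivity)))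
    have h3 := pair_lt h2 h1
    rw [he, pow_succ, show 2 ^ k * 2 * e₀ = 2 * (2 ^ k * e₀) by ring]
    exact h3
  -- words
  have hst : ∀ f ≤ 1, ∀ p ≤ k + 2, ∀ n ≤ w.length, ∀ u v : ℕ, u < 2 ^ e → v < 2 ^ e →
      (wd (sto f p n u v)).length ≤ (8 * (2 ^ (k + 1) * q) + 1 + c₁ + 4) * l := by
    intro f hf p hp n hn' u v hu hv
    refine (length_sto hf (show p < 2 ^ e by omega) (show n < 2 ^ e by omega) hu hv).trans ?_
    omega
  have hlet : ∀ n < 2 ^ e₀, (wd (2 * bitsN n)).length ≤
      (8 * (2 ^ (k + 1) * q) + 1 + c₁ + 4) * l := by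
    intro n hn'
    rw [wd_cons_false _ (by rw [bitsN_eq]; exact num_pos _), bitsN_eq, wd_num]
    have := length_bits hn'
    show n.bits.length + 1 ≤ _
    omega
  have hadr : ∀ (f : ℕ) (_ : f ≤ 1) (p n i : ℕ), n ≤ w.length → ∀ u ≤ t,
      ((machT D M code).addr (wd (sto f p n i (Nat.pair (M.run (F w ++ y) u).inp
        (hsF (M.run (F w ++ y) u).head))))).length ≤
          (8 * (2 ^ (k + 1) * q) + 1 + c₁ + 4) * l := by
    intro f hf p n i hn' u hu
    have h1 : (machT D M code).addr (wd (sto f p n i (Nat.pair (M.run (F w ++ y) u).inp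
        (hsF (M.run (F w ++ y) u).head)))) = wd (addrT (k := k) D (sto f p n i
          (Nat.pair (M.run (F w ++ y) u).inp (hsF (M.run (F w ++ y) u).head))) - 1 + 1) := by
      show wf (addrT (k := k) D) _ = _
      unfold wf
      rw [num_wd (sto_pos _ _ _ _ _)]
    rw [h1]
    unfold addrT
    rw [pO_sto hf, nO_sto hf, vO_sto hf, Nat.unpair_pair]
    have hb1 : ∀ n' : ℕ, 0 < 2 * bitsN n' := fun n' => by
      rw [bitsN_eq]
      have := num_pos n'.bits
      omega
    unfold ifz
    split_ifs with h2 h3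
    · rw [Nat.sub_add_cancel (hb1 n)]
      exact hlet n (by omega)
    · by_cases h4 : ∃ j : Fin k, p - 1 = (j : ℕ)
      · obtain ⟨j, hj⟩ := h4
        rw [hj, selL_eq (g := fun j : Fin k => (j : ℕ)) (fun _ _ h => Fin.ext h) _
          (List.mem_finRange j), vO_sto hf, Nat.unpair_pair, prj_hsF]
        have h5 : (j : ℕ) < 2 ^ e₀ := by
          have := j.2
          omega
        have h6 := pair_lt h5 (hz u hu j)
        have h7 : 2 ^ (2 * e₀) ≤ 2 ^ e := Nat.pow_le_pow_right (by norm_num) he01
        refine (length_wd_le (k := e + 1) (by omega) ?_).trans (by omega)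
        rw [show e + 1 + 1 = e + 2 by ring, pow_add]
        omega
      · rw [selL_none _ fun j _ h => h4 ⟨j, h⟩]
        rw [show 0 - 1 + 1 = 1 by rfl, wd_one]
        exact Nat.zero_le _
    · rw [Nat.sub_add_cancel (hb1 _)]
      refine hlet _ ?_
      have h4 := adr_le D n ((M.run (F w ++ y) u).inp - 1)
      have h5 := hinp u
      show adr D n ((M.run (F w ++ y) u).inp - 1) < 2 ^ e₀
      omega
  have hmem : ∀ (u : ℕ) (i : List Bool),
      (memT code w y (M.run (F w ++ y) u).tape i).length ≤ a := by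
    intro u i
    have h1 : ∀ m, (cellC code (M.run (F w ++ y) u).tape m).length ≤ a := by
      intro m
      unfold cellC
      split_ifs
      · refine (hc₁ _).trans ?_
        omega
      · exact Nat.zero_le _
    rcases i with _ | ⟨b', u'⟩
    · exact h1 0
    · cases b'
      · show (wd (1 + lett w[bval u']? + 3 * lett y[bval u']?)).length ≤ a
        refine (length_wd_le (k := 3) (by omega) ?_).trans (by omega)
        have h2 := lett_le w[bval u']?
        have h3 := lett_le y[bval u']?
        norm_num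
        omega
      · exact h1 _
  intro τ hτ
  rcases times k w.length τ with h1 | ⟨u, j, hj, rfl⟩
  · rw [conf_machA hb w y g h1]
    have h2 := hmem 0
    refine ⟨hst 0 (by omega) 0 (by omega) τ h1 0 0 (by positivity) (by positivity), ?_,
      fun i _ => h2 i⟩
    have haddr : (machT D M code).addr (wd (sto 0 0 τ 0 0)) = wd (2 * bitsN τ) := by
      refine wf_eq ?_ (by
        rw [bitsN_eq]
        have := num_pos τ.bits
        omega)
      rw [num_wd (sto_pos _ _ _ _ _)]
      unfold addrT
      rw [pO_sto (by omega), nO_sto (by omega), ifz_zero]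
    show ((machT D M code).addr (wd (sto 0 0 τ 0 0))).length ≤ _
    rw [haddr]
    exact hlet τ (by omega)
  · have hu : u ≤ t := by
      by_contra hcon
      have : (k + 2) * (t + 1) ≤ (k + 2) * u := Nat.mul_le_mul_left _ (by omega)
      rw [mul_add] at this
      omega
    rcases Nat.lt_or_ge k j with h1 | h1
    · obtain rfl : j = k + 1 := by omega
      rw [conf_msg hF hc (at_all hF hb hc w y g u)]
      exact ⟨hst 0 (by omega) (k + 2) le_rfl _ le_rfl _ _ (hix _) (hpair u hu),
        hadr 0 (by omega) _ _ _ le_rfl u hu, fun i _ => hmem (u + 1) i⟩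
    · obtain ⟨f, hf, _, h2⟩ := conf_read hc (at_all hF hb hc w y g u) h1
      rw [h2]
      exact ⟨hst f hf (j + 1) (by omega) _ le_rfl _ _ (hix _) (hpair u hu),
        hadr f hf _ _ _ le_rfl u hu, fun i _ => hmem u i⟩

end

end Pool.Agent.Helper31.Ink
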