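import Pool.Agent.Helper92.RE.Sim
import Pool.Agent.Helper31.TMS.Mach

/-!
# Numbers for the states of machines with messages which simulate Turing machines
-/

namespace Pool.Agent.Helper31.Ink

open Pool.Agent.Helper65.LinSpace Pool.Agent.Helper78.Mpc Pool.Agent.Helper28.Ram
open Pool.Agent.Helper81.RP (ls_pair)

/-! ### Integers -/

/-- The number of an integer. -/
def zig (p : ℤ) : ℕ := if 0 ≤ p then 2 * p.natAbs else 2 * p.natAbs - 1

/-- The integer with a number. -/
def zag (n : ℕ) : ℤ := if n % 2 = 0 then (n / 2 : ℕ) else -((n / 2 : ℕ) + 1 : ℤ)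

theorem zag_zig (p : ℤ) : zag (zig p) = p := by
  unfold zig zag
  split_ifs <;> omega

theorem zig_zag (n : ℕ) : zig (zag n) = n := by
  unfold zig zag
  split_ifs <;> omega

theorem zig_inj {p p' : ℤ} (h : zig p = zig p') : p = p' := by
  rw [← zag_zig p, h, zag_zig]

/-- The number of the integer after a move. -/
def mvZ (d : Dir) (n : ℕ) : ℕ :=
  match d with
  | .left => ifz (n % 2) (ifz n 1 (n - 2)) (n + 2)
  | .stay => n
  | .right => ifz (n % 2) (n + 2) (ifz (n - 1) 0 (n - 2))

theorem mvZ_zig (d : Dir) (p : ℤ) : mvZ d (zig p) = zig (p + d.toInt) := by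
  cases d
  · show ifz (zig p % 2) (ifz (zig p) 1 (zig p - 2)) (zig p + 2) = zig (p + -1)
    unfold ifz zig
    split_ifs <;> omega
  · show zig p = zig (p + 0)
    rw [add_zero]
  · show ifz (zig p % 2) (zig p + 2) (ifz (zig p - 1) 0 (zig p - 2)) = zig (p + 1)
    unfold ifz zig
    split_ifs <;> omega

theorem ls_mvZ {α : Type} [Ctx α] (d : Dir) {f : α → ℕ} (hf : LS f) : LS (fun a => mvZ d (f a)) := by
  cases d <;> simp only [mvZ] <;> fun_prop

theorem zig_lt {p : ℤ} {b : ℕ} (h1 : -2 ^ b ≤ p) (h2 : p < 2 ^ b) : zig p < 2 ^ (b + 1) := by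
  have h3 : ((2 : ℕ) ^ b : ℤ) = 2 ^ b := by push_cast; rfl
  have h4 : (2 : ℕ) ^ (b + 1) = 2 * 2 ^ b := by rw [pow_succ, mul_comm]
  unfold zig
  split_ifs <;> omega

/-! ### Tuples -/

/-- The number of a list of numbers. -/
def hsL (l : List ℕ) : ℕ := l.foldr Nat.pair 0

/-- The entry number `j`. -/
def prj : ℕ → ℕ → ℕ
  | 0, x => x.unpair.1
  | j + 1, x => prj j x.unpair.2

theorem prj_hsL {l : List ℕ} {j : ℕ} {v : ℕ} (h : l[j]? = some v) : prj j (hsL l) = v := by
  induction l generalizing j with
  | nil => simp at h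
  | cons a l ih =>
    rcases j with _ | j
    · rw [List.getElem?_cons_zero, Option.some.injEq] at h
      subst h
      show (Nat.unpair (Nat.pair a (hsL l))).1 = a
      rw [Nat.unpair_pair]
    · rw [List.getElem?_cons_succ] at h
      show prj j (Nat.unpair (Nat.pair a (hsL l))).2 = v
      rw [Nat.unpair_pair]
      exact ih h

theorem ls_prj {α : Type} [Ctx α] (j : ℕ) {f : α → ℕ} (hf : LS f) : LS (fun a => prj j (f a)) := by
  induction j generalizing f with
  | zero =>
    show LS (fun a => (f a).unpair.1)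
    fun_prop
  | succ j ih => exact ih (f := fun a => (f a).unpair.2) (by fun_prop)

theorem ls_hsL {α : Type} [Ctx α] (l : List (α → ℕ)) (hl : ∀ f ∈ l, LS f) :
    LS (fun a => hsL (l.map fun f => f a)) := by
  induction l with
  | nil => exact LS.const 0
  | cons f l ih =>
    have h1 := ih fun g hg => hl g (List.mem_cons_of_mem _ hg)
    exact ls_pair (hl f List.mem_cons_self) h1

theorem hsL_zero : ∀ n : ℕ, hsL (List.replicate n 0) = 0
  | 0 => rfl
  | n + 1 => by
    show Nat.pair 0 (hsL (List.replicate n 0)) = 0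
    rw [hsL_zero n]
    rfl

theorem hsL_lt {e : ℕ} : ∀ (l : List ℕ), (∀ v ∈ l, v < 2 ^ e) → hsL l < 2 ^ (2 ^ l.length * e)
  | [], _ => by
    show 0 < _
    positivity
  | v :: l, h => by
    have h1 := hsL_lt l fun u hu => h u (List.mem_cons_of_mem _ hu)
    have h2 : v < 2 ^ (2 ^ l.length * e) := by
      refine (h v List.mem_cons_self).trans_le (Nat.pow_le_pow_right (by norm_num) ?_)
      exact Nat.le_mul_of_pos_left _ (by positivity)
    have h3 := Pool.Agent.Helper81.RP.pair_lt h2 h1
    rw [List.length_cons, pow_succ, show 2 ^ l.length * 2 * e = 2 * (2 ^ l.length * e) by ring]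
    exact h3

/-! ### Tables -/

/-- The value of `G` for the element with the number `i`, if it is in the list. -/
def selL {ι α : Type} (g : ι → ℕ) (G : ι → α → ℕ) : List ι → ℕ → α → ℕ
  | [], _, _ => 0
  | t :: l, i, z => ifz (eq01 i (g t)) (selL g G l i z) (G t z)

theorem selL_eq {ι α : Type} {g : ι → ℕ} (hg : Function.Injective g) (G : ι → α → ℕ) {l : List ι}
    {t : ι} (h : t ∈ l) (z : α) : selL g G l (g t) z = G t z := by
  induction l with
  | nil => simp at h
  | cons t' l ih =>
    show ifz (eq01 (g t) (g t')) (selL g G l (g t) z) (G t' z) = G t z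
    by_cases h1 : g t = g t'
    · rw [hg h1]
      unfold eq01
      rw [if_pos rfl, ifz_ne one_ne_zero]
    · unfold eq01
      rw [if_neg h1, ifz_zero]
      refine ih ?_
      rcases List.mem_cons.1 h with h2 | h2
      · exact absurd (by rw [h2]) h1
      · exact h2

theorem selL_none {ι α : Type} {g : ι → ℕ} (G : ι → α → ℕ) {l : List ι} {i : ℕ}
    (h : ∀ t ∈ l, i ≠ g t) (z : α) : selL g G l i z = 0 := by
  induction l with
  | nil => rfl
  | cons t l ih =>
    show ifz (eq01 i (g t)) (selL g G l i z) (G t z) = 0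
    unfold eq01
    rw [if_neg (h t List.mem_cons_self), ifz_zero]
    exact ih fun t' h' => h t' (List.mem_cons_of_mem _ h')

theorem ls_selL {ι α : Type} [Ctx α] (g : ι → ℕ) {G : ι → α → ℕ} (hG : ∀ t, LS (G t)) (l : List ι)
    {i : α → ℕ} (hi : LS i) : LS (fun z => selL g G l (i z) z) := by
  induction l with
  | nil => exact LS.const 0
  | cons t l ih =>
    have h1 := hG t
    show LS (fun z => ifz (eq01 (i z) (g t)) (selL g G l (i z) z) (G t z))
    fun_prop

section

variable {ι : Type} [Finite ι]

/-- The number of an element of a finite type. -/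
noncomputable def ix (t : ι) : ℕ := (Finite.equivFin ι t : ℕ)

theorem ix_inj {t t' : ι} (h : ix t = ix t') : t = t' :=
  (Finite.equivFin ι).injective (Fin.ext h)

theorem ix_lt (t : ι) : ix t < Nat.card ι := (Finite.equivFin ι t).2

variable (ι) in
/-- All elements. -/
noncomputable def allE : List ι :=
  open Classical in haveI := Fintype.ofFinite ι; (Finset.univ : Finset ι).toList

theorem mem_allE (t : ι) : t ∈ allE ι := by
  unfold allE
  simp

/-- The value of `G` for the element with the number `i`. -/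
noncomputable def selT {α : Type} (G : ι → α → ℕ) (i : ℕ) (z : α) : ℕ := selL ix G (allE ι) i z

theorem selT_eq {α : Type} (G : ι → α → ℕ) (t : ι) (z : α) : selT G (ix t) z = G t z :=
  selL_eq (fun _ _ h => ix_inj h) G (mem_allE t) z

theorem ls_selT {α : Type} [Ctx α] {G : ι → α → ℕ} (hG : ∀ t, LS (G t)) {i : α → ℕ}
    (hi : LS i) : LS (fun z => selT G (i z) z) := ls_selL ix hG _ hi

end

end Pool.Agent.Helper31.Ink
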