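import Pool.Agent.Helper31.TMS.Defs

/-!
# Multitape Turing machines which rarely change a symbol: definitions
-/

namespace Pool.Agent.Helper31.Ink

open Pool.Agent.Helper65.LinSpace Pool.Agent.Helper78.Mpc
open Pool.Agent.Helper28.OHS (intW)
open Pool.Agent.Helper81.Sus2 (Decomp)
open Pool.Agent.Helper31.TMS (AcceptsAt)

variable {k : ℕ}

/-- The step after the time `t` changes a symbol on a work tape. -/
def Changes (M : TM k) (x : List Bool) (t : ℕ) : Prop :=
  (M.run x (t + 1)).tape ≠ (M.run x t).tape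

/-- The number of the steps from the time `u` to the time `v` which change a symbol on a work
tape. -/
noncomputable def ink (M : TM k) (x : List Bool) (u v : ℕ) : ℕ :=
  {t : ℕ | u ≤ t ∧ t < v ∧ Changes M x t}.ncard

/-- The work tapes at the time `t`, on the input word `x` (the symbols of the cells
`-2 ^ b, …, 2 ^ b - 1` of all tapes), have a description of at most `z` bits for the decompressor `E`,
which has random access to the words `w` and `y` and the description `d`, and answers with the code of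
the symbol. -/
def ShortX (M : TM k) (code : M.Sym → List Bool) (E : Decomp) (w y x : List Bool) (b a z t : ℕ) :
    Prop :=
  ∃ d : List Bool, d.length ≤ z ∧ ∀ (i : Fin k) (p : ℤ), -2 ^ b ≤ p → p < 2 ^ b →
    E.Says w y a d (sd (i : ℕ).bits ++ sd (intW p)) (code ((M.run x t).tape i p))

/-- The machine halts and accepts the input word `x` at some time `t`, with the following bounds, where
`n` is the length of `w`: the work heads stay in the cells `-2 ^ b, …, 2 ^ b - 1`; if the tapes have no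
description of at most `c n` bits at the times strictly between `u` and `v ≤ t`, then at most `r` steps
from `u` to `v` change a symbol. For `l = b + ⌊log₂ n⌋ + 1`: `r l ^ 3 ≤ C (n + 1) ^ (3 / 2)`,
`l ^ 3 ≤ C (n + 1) ^ (1 / 2)` and `a l ^ 2 ≤ C (n + 1)`. -/
def WithinX (M : TM k) (code : M.Sym → List Bool) (E : Decomp) (c : ℕ) (C : ℝ)
    (w y x : List Bool) : Prop :=
  ∃ t b a r : ℕ, AcceptsAt M x t ∧
    (∀ u ≤ t, ∀ i, -2 ^ b ≤ (M.run x u).head i ∧ (M.run x u).head i < 2 ^ b) ∧
    (∀ u v : ℕ, u ≤ v → v ≤ t →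
      (∀ m, u < m → m < v → ¬ShortX M code E w y x b a (c * w.length) m) → ink M x u v ≤ r) ∧
    (r : ℝ) * ((b : ℝ) + ((Nat.log 2 w.length : ℝ) + 1)) ^ 3 ≤
      C * ((w.length : ℝ) + 1) ^ ((3 : ℝ) / 2) ∧
    ((b : ℝ) + ((Nat.log 2 w.length : ℝ) + 1)) ^ 3 ≤ C * ((w.length : ℝ) + 1) ^ ((1 : ℝ) / 2) ∧
    (a : ℝ) * ((b : ℝ) + ((Nat.log 2 w.length : ℝ) + 1)) ^ 2 ≤ C * ((w.length : ℝ) + 1)

/-- The machine halts and accepts the word `x y` at some time `t`; its work heads stay in the cells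
`-2 ^ b, …, 2 ^ b - 1`, and at most `r` steps change a symbol on a work tape, where, for the length `n`
of `x` and `l = b + ⌊log₂ n⌋ + 1`, `r l ^ 3 ≤ C (n + 1) ^ (3 / 2)` and `l ^ 3 ≤ C (n + 1) ^ (1 / 2)`. For
example, the machine accepts in time `n ^ C` and changes at most `C n ^ (3 / 2) / log ^ 3 n` times a
symbol. -/
def Sparing (M : TM k) (C : ℝ) (x y : List Bool) : Prop :=
  ∃ t b r : ℕ, AcceptsAt M (x ++ y) t ∧
    (∀ u ≤ t, ∀ i, -2 ^ b ≤ (M.run (x ++ y) u).head i ∧ (M.run (x ++ y) u).head i < 2 ^ b) ∧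
    ink M (x ++ y) 0 t ≤ r ∧
    (r : ℝ) * ((b : ℝ) + ((Nat.log 2 x.length : ℝ) + 1)) ^ 3 ≤
      C * ((x.length : ℝ) + 1) ^ ((3 : ℝ) / 2) ∧
    ((b : ℝ) + ((Nat.log 2 x.length : ℝ) + 1)) ^ 3 ≤ C * ((x.length : ℝ) + 1) ^ ((1 : ℝ) / 2)

end Pool.Agent.Helper31.Ink
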