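import Pool.Agent.Helper31.Ink.Good
import Pool.Agent.Helper31.Ink.Goals

/-!
# Turing machines which rarely change a symbol, and descriptions of their tapes
-/

namespace Pool.Agent.Helper31.Ink

open Pool.Agent.Helper65.LinSpace Pool.Agent.Helper78.Mpc Pool.Agent.Helper28.Ram
open Pool.Agent.Helper81.Sus2
open Pool.Agent.Helper92.RE (LD)
open Pool.Agent.Helper31.TMS (AcceptsAt)
open Pool.Agent.Helper28.OHS (intW)
open Pool.Agent.Helper81.RP (wd num_wd wd_num wd_one says_fun says_mono)

/-- The number of the name of the cell with the number `z` of the tape `i`. -/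
def nmC (i z : ℕ) : ℕ :=
  catN (sdN (bitsN i)) (sdN (ifz (z % 2) (1 + 2 * bitsN (z / 2)) (2 * bitsN (z / 2 + 1))))

theorem nmC_eq (i : ℕ) (p : ℤ) : nmC i (zig p) = num (sd i.bits ++ sd (intW p)) := by
  have h1 : ifz (zig p % 2) (1 + 2 * bitsN (zig p / 2)) (2 * bitsN (zig p / 2 + 1)) =
      num (intW p) := by
    unfold ifz
    rw [bitsN_eq, bitsN_eq]
    show _ = (decide (0 ≤ p)).toNat + 2 * num p.natAbs.bits
    unfold zig
    by_cases hp : 0 ≤ p
    · rw [if_pos hp, if_pos (by omega), decide_eq_true hp, Bool.toNat_true,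
        show 2 * p.natAbs / 2 = p.natAbs by omega]
    · rw [if_neg hp, if_neg (by omega), decide_eq_false hp, Bool.toNat_false, zero_add,
        show (2 * p.natAbs - 1) / 2 + 1 = p.natAbs by omega]
  unfold nmC
  rw [h1, bitsN_eq, sdN_num, sdN_num, catN_num]

/-- The translation of the names. -/
def trG (k h x : ℕ) : ℕ :=
  ifz (lt01 (x / 2).unpair.1 k) 2 (ifz (lt01 (x / 2).unpair.2 (2 * h)) 2
    (2 * nmC (x / 2).unpair.1 (x / 2).unpair.2 + 1))

theorem ls_trG (k : ℕ) : LS (fun z : ℕ × ℕ => trG k z.1 z.2) := by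
  unfold trG nmC
  have h1 : LS (fun z : ℕ × ℕ => (z.2 / 2).unpair.1) := by fun_prop
  have h2 : LS (fun z : ℕ × ℕ => (z.2 / 2).unpair.2) := by fun_prop
  have h3 : LS (fun z : ℕ × ℕ => bitsN (z.2 / 2).unpair.1) := LS.bitsN h1
  have h4 : LS (fun z : ℕ × ℕ => bitsN ((z.2 / 2).unpair.2 / 2)) :=
    LS.bitsN (f := fun z : ℕ × ℕ => (z.2 / 2).unpair.2 / 2) (by fun_prop)
  have h5 : LS (fun z : ℕ × ℕ => bitsN ((z.2 / 2).unpair.2 / 2 + 1)) :=
    LS.bitsN (f := fun z : ℕ × ℕ => (z.2 / 2).unpair.2 / 2 + 1) (by fun_prop)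
  fun_prop

theorem trG_out {k h x : ℕ} (hx : ¬((x / 2).unpair.1 < k ∧ (x / 2).unpair.2 < 2 * h)) :
    trG k h x = 2 := by
  unfold trG lt01
  by_cases h1 : (x / 2).unpair.1 < k
  · rw [if_pos h1, ifz_ne one_ne_zero, if_neg fun h2 => hx ⟨h1, h2⟩, ifz_zero]
  · rw [if_neg h1, ifz_zero]

theorem trG_in {k h x : ℕ} (h1 : (x / 2).unpair.1 < k) (h2 : (x / 2).unpair.2 < 2 * h) :
    trG k h x = 2 * nmC (x / 2).unpair.1 (x / 2).unpair.2 + 1 := by
  unfold trG lt01
  rw [if_pos h1, ifz_ne one_ne_zero, if_pos h2, ifz_ne one_ne_zero]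

theorem bits_length_le (n : ℕ) : n.bits.length ≤ Nat.log 2 n + 1 := by
  refine length_bits ?_
  exact Nat.lt_pow_succ_log_self (by norm_num) n

theorem trG_log (k : ℕ) : ∃ c : ℕ, ∀ h x,
    Nat.log 2 (trG k h x) ≤ c * (Nat.log 2 h + Nat.log 2 x + 1) := by
  refine ⟨30, fun h x => ?_⟩
  by_cases hx : (x / 2).unpair.1 < k ∧ (x / 2).unpair.2 < 2 * h
  · rw [trG_in hx.1 hx.2]
    set i := (x / 2).unpair.1 with hi
    set z := (x / 2).unpair.2 with hz
    have hix : i ≤ x := (Nat.unpair_left_le _).trans (Nat.div_le_self _ _)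
    have hzx : z ≤ x := (Nat.unpair_right_le _).trans (Nat.div_le_self _ _)
    have h1 : nmC i z = num (sd i.bits ++ sd (intW (zag z))) := by
      rw [← nmC_eq, zig_zag]
    have h2 : Nat.log 2 (2 * nmC i z + 1) ≤ (sd i.bits ++ sd (intW (zag z))).length + 1 := by
      rw [h1]
      refine Nat.lt_succ_iff.1 (Nat.log_lt_of_lt_pow (by omega) ?_)
      have h3 : num (sd i.bits ++ sd (intW (zag z))) <
          2 ^ ((sd i.bits ++ sd (intW (zag z))).length + 1) := by
        have := Nat.lt_pow_succ_log_self (b := 2) (by norm_num)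
          (num (sd i.bits ++ sd (intW (zag z))))
        rwa [log_num] at this
      rw [pow_succ]
      omega
    refine h2.trans ?_
    rw [List.length_append, length_sd, length_sd]
    have h4 : (intW (zag z)).length = (zag z).natAbs.bits.length + 1 := rfl
    have h5 := bits_length_le i
    have h6 := bits_length_le (zag z).natAbs
    have h7 : (zag z).natAbs ≤ 2 * (z + 1) := by
      unfold zag
      split_ifs <;> omega
    have h8 : Nat.log 2 (zag z).natAbs ≤ Nat.log 2 x + 2 := by
      refine (Nat.log_mono_right (h7.trans (show 2 * (z + 1) ≤ 2 * (x + 1) by omega))).trans ?_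
      refine Nat.lt_succ_iff.1 (Nat.log_lt_of_lt_pow (by omega) ?_)
      have h9 : x < 2 ^ (Nat.log 2 x + 1) := Nat.lt_pow_succ_log_self (by norm_num) x
      rw [show (Nat.log 2 x + 2).succ = Nat.log 2 x + 1 + 2 from rfl, pow_add]
      omega
    have h9 : Nat.log 2 i ≤ Nat.log 2 x := Nat.log_mono_right hix
    omega
  · rw [trG_out hx]
    have : Nat.log 2 2 = 1 := by norm_num
    omega

/-- A description of the tapes gives a description of the memory of the machine with messages. -/
theorem short_conv (hconv : CONV) (k : ℕ) (E : Decomp) : ∃ (E' : Decomp) (K : ℕ),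
    ∀ {D : LD} {M : TM k} {code : M.Sym → List Bool} {F : List Bool → List Bool} (_ : D.Is F)
      (_ : code M.blank = []) (_ : Function.Injective code) (w y : List Bool) (g : ℕ → Bool)
      (b a z s m a' z' : ℕ),
      (∀ i p, ¬(-2 ^ b ≤ p ∧ p < 2 ^ b) → (M.run (F w ++ y) m).tape i p = M.blank) →
      ShortX M code E w y (F w ++ y) b a z m →
      a + K * (b + s + Nat.log 2 (z + 1) + 1) ≤ a' → 2 * z + K * (b + 1) ≤ z' →
      (machT D M code).Short E' w y g s a' z' 0 [] (w.length + 1 + (k + 2) * m) := by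
  obtain ⟨E', K, hK⟩ := hconv E (trG k) (ls_trG k) (trG_log k)
  refine ⟨E', K, ?_⟩
  intro D M code F hF hb hc w y g b a z s m a' z' hout hsh ha' hz'
  obtain ⟨d, hd, hsays⟩ := hsh
  obtain ⟨D', hD', h1⟩ := hK w y d (2 ^ b) a s
  have hlog : Nat.log 2 (2 ^ b) = b := Nat.log_pow (by norm_num) b
  rw [hlog] at hD' h1
  refine ⟨D', ?_, fun j v hj hj0 => ?_⟩
  · omega
  have hmem : ((machT D M code).conf w y g (w.length + 1 + (k + 2) * m)).2 j =
      cellC code (M.run (F w ++ y) m).tape (num j / 2) := by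
    rw [mem_mach hF hb hc, show w.length + 1 + (k + 2) * m = w.length + 1 + (k + 2) * m + 0 from rfl,
      mT_at _ _ _ (Nat.zero_le _), memT_num w y _ hj0]
  have haa : a + K * (b + s + Nat.log 2 (d.length + 1) + 1) ≤ a' := by
    have h2 : Nat.log 2 (d.length + 1) ≤ Nat.log 2 (z + 1) := Nat.log_mono_right (by omega)
    have h3 := Nat.mul_le_mul_left K (show b + s + Nat.log 2 (d.length + 1) + 1 ≤
      b + s + Nat.log 2 (z + 1) + 1 by omega)
    omega
  have hans : E'.Says w y a' D' j
      (cellC code (M.run (F w ++ y) m).tape (num j / 2)) := by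
    refine says_mono haa ?_
    obtain ⟨h2, h3⟩ := h1 j hj hj0
    by_cases hin : (num j / 2).unpair.1 < k ∧ (num j / 2).unpair.2 < 2 * 2 ^ b
    · have h4 := trG_in hin.1 hin.2
      rw [h4] at h3
      have h5 := h3 (by omega)
      rw [show (2 * nmC (num j / 2).unpair.1 (num j / 2).unpair.2 + 1) / 2 =
        nmC (num j / 2).unpair.1 (num j / 2).unpair.2 by omega] at h5
      refine h5 _ ?_
      set p := zag (num j / 2).unpair.2 with hp
      have h6 : (num j / 2).unpair.2 = zig p := by rw [hp, zig_zag]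
      have h7 := hsays ⟨(num j / 2).unpair.1, hin.1⟩ p
      have h8 : zig p < 2 * 2 ^ b := by
        rw [← h6]
        exact hin.2
      have h9 : ((2 : ℕ) ^ b : ℤ) = 2 ^ b := by push_cast; rfl
      have h10 : -2 ^ b ≤ p ∧ p < 2 ^ b := by
        unfold zig at h8
        split_ifs at h8 <;> omega
      rw [h6, nmC_eq, wd_num]
      unfold cellC
      rw [dif_pos hin.1]
      exact h7 h10.1 h10.2
    · have h4 := trG_out hin
      rw [h4] at h2
      have h5 : E'.Says w y (a + K * (b + s + Nat.log 2 (d.length + 1) + 1)) D' j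
        (wd (2 / 2)) := h2 rfl
      rw [show 2 / 2 = 1 by norm_num, wd_one] at h5
      have h6 : cellC code (M.run (F w ++ y) m).tape (num j / 2) = [] := by
        unfold cellC
        by_cases h7 : (num j / 2).unpair.1 < k
        · rw [dif_pos h7, hout, hb]
          rintro ⟨h8, h9⟩
          apply hin
          refine ⟨h7, ?_⟩
          have h10 := zig_lt h8 h9
          rw [zig_zag, pow_succ] at h10
          omega
        · rw [dif_neg h7]
      rw [h6]
      exact h5
  constructor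
  · intro h2
    refine ⟨Or.inl rfl, ?_⟩
    rw [hmem]
    exact says_fun hans h2
  · rintro ⟨-, h2⟩
    rw [hmem] at h2
    rw [← h2]
    exact hans

/-- Cells which were not visited are blank. -/
theorem tape_out {k : ℕ} (M : TM k) (x : List Bool) {b m : ℕ}
    (h : ∀ u < m, ∀ i, -2 ^ b ≤ (M.run x u).head i ∧ (M.run x u).head i < 2 ^ b) (i : Fin k) (p : ℤ)
    (hp : ¬(-2 ^ b ≤ p ∧ p < 2 ^ b)) : (M.run x m).tape i p = M.blank := by
  induction m with
  | zero => rfl
  | succ m ih =>
    rw [tape_succ]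
    beta_reduce
    rw [Function.update_of_ne]
    · exact ih fun u hu => h u (by omega)
    · intro h1
      apply hp
      rw [h1]
      exact h m (by omega) i

/-- **Turing machines which rarely change a symbol**, and descriptions of their tapes. -/
theorem good_within (hconv : CONV) {k : ℕ} {M : TM k} {code : M.Sym → List Bool}
    (hb : code M.blank = []) (hc : Function.Injective code) {D : LD}
    {F : List Bool → List Bool} (hF : D.Is F) (B : ℕ) (E : Decomp) {c : ℕ} (C : ℝ) :
    ∃ (E' : Decomp) (C' : ℝ) (n₁ : ℕ), ∀ w y : List Bool, n₁ ≤ w.length →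
      (F w ++ y).length + 2 ≤ B * (w.length + 1) → WithinX M code E c C w y (F w ++ y) →
      (machT D M code).Good E' (2 * c + 1) C' w y := by
  obtain ⟨E', K₂, h2⟩ := short_conv hconv k E
  obtain ⟨K, h⟩ := good_core (M := M) (code := code) hF hb hc B
  obtain ⟨C', n₁, h⟩ := h E' (2 * c + 1) (by omega) C (K₂ * (K + Nat.log 2 c + 6))
  refine ⟨E', C', n₁ + ⌈((K₂ : ℝ) * |C| + 1) ^ 2⌉₊, ?_⟩
  rintro w y hw hB ⟨t, b, a, r, hacc, hbox, hst, b1, b2, b3⟩
  refine h w y t b a r (fun m => m ≤ t ∧ ShortX M code E w y (F w ++ y) b a (c * w.length) m)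
    (by omega) hB hacc hbox ?_ ?_ b1 b2 b3
  · intro u v huv hv hno
    exact hst u v huv hv fun m h3 h4 h5 => hno m h3 h4 ⟨by omega, h5⟩
  · rintro g m ⟨hm, hsh⟩
    set l := b + (Nat.log 2 w.length + 1) with hl
    have hl1 : 1 ≤ l := by omega
    refine h2 hF hb hc w y g b a (c * w.length) (K * l) m _ _
      (fun i p hp => tape_out M _ (fun u hu i => hbox u (by omega) i) i p hp) hsh ?_ ?_
    · have h3 : Nat.log 2 (c * w.length + 1) ≤ Nat.log 2 c + Nat.log 2 w.length + 2 := by
        refine Nat.lt_succ_iff.1 (Nat.log_lt_of_lt_pow (by omega) ?_)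
        have h4 : c < 2 ^ (Nat.log 2 c + 1) := Nat.lt_pow_succ_log_self (by norm_num) c
        have h5 : w.length < 2 ^ (Nat.log 2 w.length + 1) :=
          Nat.lt_pow_succ_log_self (by norm_num) w.length
        have h6 : c * w.length ≤ 2 ^ (Nat.log 2 c + 1) * 2 ^ (Nat.log 2 w.length + 1) :=
          Nat.mul_le_mul h4.le h5.le
        rw [← pow_add] at h6
        have h7 : (2 : ℕ) ^ (Nat.log 2 c + Nat.log 2 w.length + 2).succ =
            2 * 2 ^ (Nat.log 2 c + 1 + (Nat.log 2 w.length + 1)) := by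
          rw [← pow_succ']
          congr 1
          omega
        rw [h7]
        have h8 : 2 ≤ (2 : ℕ) ^ (Nat.log 2 c + 1 + (Nat.log 2 w.length + 1)) := by
          calc 2 = 2 ^ 1 := by norm_num
            _ ≤ _ := Nat.pow_le_pow_right (by norm_num) (by omega)
        omega
      have h4 : b + K * l + Nat.log 2 (c * w.length + 1) + 1 ≤ (K + Nat.log 2 c + 6) * l := by
        have h5 : (K + Nat.log 2 c + 6) * l = K * l + Nat.log 2 c * l + 6 * l := by ring
        have h6 : Nat.log 2 c ≤ Nat.log 2 c * l := Nat.le_mul_of_pos_right _ hl1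
        omega
      have h5 := Nat.mul_le_mul_left K₂ h4
      have h6 : (K + K₂ * (K + Nat.log 2 c + 6)) * l =
          K * l + K₂ * ((K + Nat.log 2 c + 6) * l) := by ring
      show a + K₂ * (b + K * l + Nat.log 2 (c * w.length + 1) + 1) ≤
        a + (K + K₂ * (K + Nat.log 2 c + 6)) * l
      rw [h6]
      have h7 : 0 ≤ K * l := Nat.zero_le _
      omega
    · have h3 : K₂ * (b + 1) ≤ w.length := by
        have hNN : ((K₂ : ℝ) * |C| + 1) ^ 2 ≤ (w.length : ℝ) + 1 := by
          have h4 : (⌈((K₂ : ℝ) * |C| + 1) ^ 2⌉₊ : ℝ) ≤ w.length := by exact_mod_cast (by omega)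
          have h5 := Nat.le_ceil (((K₂ : ℝ) * |C| + 1) ^ 2)
          linarith
        have hN : (1 : ℝ) ≤ (w.length : ℝ) + 1 := by
          have : (0 : ℝ) ≤ w.length := Nat.cast_nonneg _
          linarith
        set N : ℝ := (w.length : ℝ) + 1 with hNdef
        have hsq : (N ^ ((1 : ℝ) / 2)) ^ 2 = N := by
          rw [← Real.rpow_natCast, ← Real.rpow_mul (by linarith)]
          norm_num
        have hp : 0 ≤ N ^ ((1 : ℝ) / 2) := Real.rpow_nonneg (by linarith) _
        have hC := abs_nonneg C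
        have hK0 : (0 : ℝ) ≤ K₂ := Nat.cast_nonneg _
        have hroot : (K₂ : ℝ) * |C| + 1 ≤ N ^ ((1 : ℝ) / 2) := by
          refine (sq_le_sq₀ (by positivity) hp).1 ?_
          rw [hsq]
          exact hNN
        set q : ℝ := (b : ℝ) + ((Nat.log 2 w.length : ℝ) + 1) with hq
        have hb0 : (0 : ℝ) ≤ b := Nat.cast_nonneg _
        have hn0 : (0 : ℝ) ≤ Nat.log 2 w.length := Nat.cast_nonneg _
        have hq1 : 1 ≤ q := by linarith
        have h4 : q ≤ q ^ 3 := by
          calc q = q ^ 1 := (pow_one q).symm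
            _ ≤ q ^ 3 := pow_le_pow_right₀ hq1 (by norm_num)
        have h5 : (b : ℝ) + 1 ≤ |C| * N ^ ((1 : ℝ) / 2) := by
          have h6 : C * N ^ ((1 : ℝ) / 2) ≤ |C| * N ^ ((1 : ℝ) / 2) :=
            mul_le_mul_of_nonneg_right (le_abs_self C) hp
          linarith
        have h6 : (K₂ : ℝ) * ((b : ℝ) + 1) ≤ w.length := by
          have h7 : (K₂ : ℝ) * ((b : ℝ) + 1) ≤ K₂ * (|C| * N ^ ((1 : ℝ) / 2)) :=
            mul_le_mul_of_nonneg_left h5 hK0
          have h8 : (K₂ : ℝ) * |C| * N ^ ((1 : ℝ) / 2) ≤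
              (N ^ ((1 : ℝ) / 2) - 1) * N ^ ((1 : ℝ) / 2) :=
            mul_le_mul_of_nonneg_right (by linarith) hp
          have h9 : (1 : ℝ) ≤ N ^ ((1 : ℝ) / 2) := by
            have : 0 ≤ (K₂ : ℝ) * |C| := by positivity
            linarith
          have h10 : (N ^ ((1 : ℝ) / 2) - 1) * N ^ ((1 : ℝ) / 2) ≤ N - 1 := by
            have h11 : (N ^ ((1 : ℝ) / 2) - 1) * N ^ ((1 : ℝ) / 2) =
              (N ^ ((1 : ℝ) / 2)) ^ 2 - N ^ ((1 : ℝ) / 2) := by ring
            rw [h11, hsq]
            linarith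
          have h12 : N - 1 = w.length := by
            rw [hNdef]
            ring
          rw [← h12]
          nlinarith
        exact_mod_cast h6
      have h4 : (2 * c + 1) * w.length = 2 * (c * w.length) + w.length := by ring
      omega

end Pool.Agent.Helper31.Ink
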