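import Pool.Agent.Helper31.Ink.Good
import Pool.Agent.Helper92.KR.Inst

/-!
# Turing machines which rarely change a symbol, on the words `F w y`
-/

namespace Pool.Agent.Helper31.Ink

open Pool.Agent.Helper65.LinSpace Pool.Agent.Helper78.Mpc Pool.Agent.Helper28.Ram
open Pool.Agent.Helper81.Sus2
open Pool.Agent.Helper92.RE (LD)
open Pool.Agent.Helper31.TMS (AcceptsAt)
open Pool.Agent.Helper92.KR (Sim hub_nbm nilE exists_code)

/-- The bounds for the words `F w`. -/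
theorem bounds_F {C N N' B b n n' r : ℝ} (hb : 0 ≤ b) (hn : 0 ≤ n) (hnn : n ≤ n') (hr : 0 ≤ r)
    (hN : 1 ≤ N) (hB : 1 ≤ B) (hN' : N' ≤ B * N) (hN0 : 1 ≤ N')
    (b1 : r * (b + (n' + 1)) ^ 3 ≤ C * N' ^ ((3 : ℝ) / 2))
    (b2 : (b + (n' + 1)) ^ 3 ≤ C * N' ^ ((1 : ℝ) / 2)) :
    r * (b + (n + 1)) ^ 3 ≤ |C| * B ^ 2 * N ^ ((3 : ℝ) / 2) ∧
      (b + (n + 1)) ^ 3 ≤ |C| * B ^ 2 * N ^ ((1 : ℝ) / 2) := by
  have hC : 0 ≤ |C| := abs_nonneg C
  have hp3 : N' ^ ((3 : ℝ) / 2) ≤ B ^ 2 * N ^ ((3 : ℝ) / 2) := by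
    calc N' ^ ((3 : ℝ) / 2) ≤ (B * N) ^ ((3 : ℝ) / 2) :=
          Real.rpow_le_rpow (by linarith) hN' (by norm_num)
      _ = B ^ ((3 : ℝ) / 2) * N ^ ((3 : ℝ) / 2) := Real.mul_rpow (by linarith) (by linarith)
      _ ≤ B ^ 2 * N ^ ((3 : ℝ) / 2) := by
        refine mul_le_mul_of_nonneg_right ?_ (Real.rpow_nonneg (by linarith) _)
        have := Real.rpow_le_rpow_of_exponent_le hB (by norm_num : (3 : ℝ) / 2 ≤ (2 : ℕ))
        rwa [Real.rpow_natCast] at this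
  have hp1 : N' ^ ((1 : ℝ) / 2) ≤ B ^ 2 * N ^ ((1 : ℝ) / 2) := by
    calc N' ^ ((1 : ℝ) / 2) ≤ (B * N) ^ ((1 : ℝ) / 2) :=
          Real.rpow_le_rpow (by linarith) hN' (by norm_num)
      _ = B ^ ((1 : ℝ) / 2) * N ^ ((1 : ℝ) / 2) := Real.mul_rpow (by linarith) (by linarith)
      _ ≤ B ^ 2 * N ^ ((1 : ℝ) / 2) := by
        refine mul_le_mul_of_nonneg_right ?_ (Real.rpow_nonneg (by linarith) _)
        have := Real.rpow_le_rpow_of_exponent_le hB (by norm_num : (1 : ℝ) / 2 ≤ (2 : ℕ))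
        rwa [Real.rpow_natCast] at this
  have hl : (b + (n + 1)) ^ 3 ≤ (b + (n' + 1)) ^ 3 := by gcongr
  have h3 : 0 ≤ N' ^ ((3 : ℝ) / 2) := Real.rpow_nonneg (by linarith) _
  have h1 : 0 ≤ N' ^ ((1 : ℝ) / 2) := Real.rpow_nonneg (by linarith) _
  constructor
  · calc r * (b + (n + 1)) ^ 3 ≤ r * (b + (n' + 1)) ^ 3 := mul_le_mul_of_nonneg_left hl hr
      _ ≤ C * N' ^ ((3 : ℝ) / 2) := b1
      _ ≤ |C| * N' ^ ((3 : ℝ) / 2) := mul_le_mul_of_nonneg_right (le_abs_self C) h3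
      _ ≤ |C| * (B ^ 2 * N ^ ((3 : ℝ) / 2)) := mul_le_mul_of_nonneg_left hp3 hC
      _ = _ := by ring
  · calc (b + (n + 1)) ^ 3 ≤ (b + (n' + 1)) ^ 3 := hl
      _ ≤ C * N' ^ ((1 : ℝ) / 2) := b2
      _ ≤ |C| * N' ^ ((1 : ℝ) / 2) := mul_le_mul_of_nonneg_right (le_abs_self C) h1
      _ ≤ |C| * (B ^ 2 * N ^ ((1 : ℝ) / 2)) := mul_le_mul_of_nonneg_left hp1 hC
      _ = _ := by ring

/-- **Turing machines which rarely change a symbol**, on the words `F w y`, in any time. -/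
theorem sim_ink {c : ℕ} (hc : 0 < c) {D : LD} {F : List Bool → List Bool} (hF : D.Is F) {b₀ : ℕ}
    (hlen : ∀ w, (F w).length ≤ b₀ * (w.length + 1)) (hle : ∀ w, w.length ≤ (F w).length)
    {k : ℕ} (M : TM k) (C : ℝ) :
    Sim c (fun w y => ∃ t, AcceptsAt M (F w ++ y) t) fun w y => Sparing M C (F w) y := by
  obtain ⟨code, hcode, hb⟩ := exists_code M
  obtain ⟨K, h⟩ := good_core (M := M) (code := code) hF hb hcode (b₀ + 4 * c + 2)
  obtain ⟨C', n₁, h⟩ := h nilE c hc (|C| * ((b₀ : ℝ) + 1) ^ 2) 0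
  refine ⟨_, _, hub_nbm c (machT D M code) nilE C', ?_, ?_, n₁, ?_⟩
  · rintro w y ⟨g, r, h1⟩
    obtain ⟨t, _, ht⟩ := (accepts_iff hF hb hcode w y g r).1 h1
    exact ⟨t, ht⟩
  · rintro w y ⟨t, _, _, h1, -⟩
    exact ⟨fun _ => false, _, (accepts_iff hF hb hcode w y _ _).2 ⟨t, rfl, h1⟩⟩
  · rintro w y hw hy ⟨t, b, r, hacc, hbox, hink, b1, b2⟩
    have hN : (1 : ℝ) ≤ (w.length : ℝ) + 1 := by
      have : (0 : ℝ) ≤ w.length := Nat.cast_nonneg _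
      linarith
    have hN0 : (1 : ℝ) ≤ ((F w).length : ℝ) + 1 := by
      have : (0 : ℝ) ≤ (F w).length := Nat.cast_nonneg _
      linarith
    have hB1 : (1 : ℝ) ≤ (b₀ : ℝ) + 1 := by
      have : (0 : ℝ) ≤ b₀ := Nat.cast_nonneg _
      linarith
    have hN' : ((F w).length : ℝ) + 1 ≤ ((b₀ : ℝ) + 1) * ((w.length : ℝ) + 1) := by
      have h1 : (F w).length + 1 ≤ (b₀ + 1) * (w.length + 1) := by
        have h2 := hlen w
        nlinarith
      exact_mod_cast h1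
    have hlog : (Nat.log 2 w.length : ℝ) ≤ Nat.log 2 (F w).length := by
      exact_mod_cast Nat.log_mono_right (hle w)
    obtain ⟨d1, d2⟩ := bounds_F (Nat.cast_nonneg b) (Nat.cast_nonneg _) hlog (Nat.cast_nonneg r)
      hN hB1 hN' hN0 b1 b2
    refine h w y t b 0 r (fun _ => False) hw ?_ hacc hbox (fun u v _ hv _ =>
      (ink_mono M _ (Nat.zero_le u) hv).trans hink) (fun _ _ h => h.elim) d1 d2 ?_
    · have h2 := hlen w
      rw [List.length_append]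
      have h3 : (b₀ + 4 * c + 2) * (w.length + 1) =
          b₀ * (w.length + 1) + 4 * c * w.length + 4 * c + 2 * (w.length + 1) := by ring
      omega
    · have : (0 : ℝ) ≤ |C| * ((b₀ : ℝ) + 1) ^ 2 * ((w.length : ℝ) + 1) := by
        have := abs_nonneg C
        positivity
      simpa using this

end Pool.Agent.Helper31.Ink
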