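import Pool.Agent.Helper31.Ink.Bnd

/-!
# Turing machines on the words `F w y` as machines with messages: good computations
-/

namespace Pool.Agent.Helper31.Ink

open Pool.Agent.Helper65.LinSpace Pool.Agent.Helper78.Mpc Pool.Agent.Helper28.Ram
open Pool.Agent.Helper81.Sus2
open Pool.Agent.Helper92.RE (LD)
open Pool.Agent.Helper31.TMS (AcceptsAt run_halt)

variable {k : ℕ} {D : LD} {M : TM k} {code : M.Sym → List Bool}

theorem ink_mono (M : TM k) (x : List Bool) {u v u' v' : ℕ} (hu : u' ≤ u) (hv : v ≤ v') :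
    ink M x u v ≤ ink M x u' v' := by
  unfold ink
  refine Set.ncard_le_ncard (fun t h => ⟨hu.trans h.1, h.2.1.trans_le hv, h.2.2⟩) ?_
  exact (Set.finite_lt_nat v').subset fun t h => h.2.1

theorem not_changes {M : TM k} {x : List Bool} {t : ℕ} (h : AcceptsAt M x t) :
    ¬Changes M x t := by
  unfold Changes
  rw [run_halt M h.1]
  exact fun h1 => h1 rfl

theorem ink_succ {M : TM k} {x : List Bool} {t : ℕ} (h : AcceptsAt M x t) (u : ℕ) :
    ink M x u (t + 1) ≤ ink M x u t := by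
  unfold ink
  refine Set.ncard_le_ncard ?_ ((Set.finite_lt_nat t).subset fun s h => h.2.1)
  rintro s ⟨h1, h2, h3⟩
  refine ⟨h1, ?_, h3⟩
  rcases Nat.lt_succ_iff_lt_or_eq.1 h2 with h4 | h4
  · exact h4
  · subst h4
    exact absurd h3 (not_changes h)

theorem ink_self (M : TM k) (x : List Bool) (u : ℕ) : ink M x u u = 0 := by
  unfold ink
  have : {t : ℕ | u ≤ t ∧ t < u ∧ Changes M x t} = ∅ := by
    ext t
    simp only [Set.mem_ofPred_eq, Set.mem_empty_iff_false, iff_false]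
    omega
  rw [this, Set.ncard_empty]

theorem guesses_mach (w y : List Bool) (g : ℕ → Bool) (t t' : ℕ) :
    (machT D M code).guesses w y g t t' = 0 := by
  unfold NBM.guesses
  have : {i : ℕ | t ≤ i ∧ i < t' ∧
      (machT D M code).ask ((machT D M code).conf w y g i).1} = ∅ := by
    ext i
    simp only [Set.mem_ofPred_eq, Set.mem_empty_iff_false, iff_false]
    rintro ⟨_, _, h⟩
    exact Bool.false_ne_true h
  rw [this, Set.ncard_empty]

/-- The bounds. -/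
theorem bounds {C N K K' b n r a : ℝ} (hb : 0 ≤ b) (hn : 0 ≤ n) (hK : 0 ≤ K) (hK' : 0 ≤ K')
    (hr : 0 ≤ r) (ha : 0 ≤ a) (hN : 1 ≤ N)
    (b1 : r * (b + (n + 1)) ^ 3 ≤ C * N ^ ((3 : ℝ) / 2))
    (b2 : (b + (n + 1)) ^ 3 ≤ C * N ^ ((1 : ℝ) / 2))
    (b3 : a * (b + (n + 1)) ^ 2 ≤ C * N) :
    r * (K * (b + (n + 1)) + (K * (b + (n + 1)) + 1 + (n + 1))) *
        (K * (b + (n + 1)) + 1 + (n + 1)) ^ 2 ≤
          (2 * K + 2) * (K + 2) ^ 2 * (1 + K') * |C| * N ^ ((3 : ℝ) / 2) ∧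
      (K * (b + (n + 1)) + (K * (b + (n + 1)) + 1 + (n + 1))) * (K * (b + (n + 1)) + 1 + 1) *
        (K * (b + (n + 1)) + 1 + (n + 1)) ≤
          (2 * K + 2) * (K + 2) ^ 2 * (1 + K') * |C| * N ^ ((1 : ℝ) / 2) ∧
      (a + K' * (b + (n + 1))) * (K * (b + (n + 1)) + 1 + (n + 1)) ^ 2 ≤
          (2 * K + 2) * (K + 2) ^ 2 * (1 + K') * |C| * N ∧
      K * (b + (n + 1)) + (K * (b + (n + 1)) + 1 + (n + 1)) ≤
        (2 * K + 2) * |C| * N ^ ((1 : ℝ) / 2) := by
  set l := b + (n + 1) with hl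
  have hl1 : 1 ≤ l := by linarith
  have hC : 0 ≤ |C| := abs_nonneg C
  have hp3 : 0 ≤ N ^ ((3 : ℝ) / 2) := Real.rpow_nonneg (by linarith) _
  have hp1 : 0 ≤ N ^ ((1 : ℝ) / 2) := Real.rpow_nonneg (by linarith) _
  have c1 : r * l ^ 3 ≤ |C| * N ^ ((3 : ℝ) / 2) :=
    b1.trans (mul_le_mul_of_nonneg_right (le_abs_self C) hp3)
  have c2 : l ^ 3 ≤ |C| * N ^ ((1 : ℝ) / 2) :=
    b2.trans (mul_le_mul_of_nonneg_right (le_abs_self C) hp1)
  have c3 : a * l ^ 2 ≤ |C| * N :=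
    b3.trans (mul_le_mul_of_nonneg_right (le_abs_self C) (by linarith))
  have hL : K * l + 1 + (n + 1) ≤ (K + 2) * l := by nlinarith
  have hL0 : 0 ≤ K * l + 1 + (n + 1) := by nlinarith
  have hS : K * l + (K * l + 1 + (n + 1)) ≤ (2 * K + 2) * l := by nlinarith
  have hS0 : 0 ≤ K * l + (K * l + 1 + (n + 1)) := by nlinarith
  have hH : K * l + 1 + 1 ≤ (K + 2) * l := by nlinarith
  have hH0 : 0 ≤ K * l + 1 + 1 := by nlinarith
  have hone : 1 ≤ 1 + K' := by linarith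
  have hX : 0 ≤ (2 * K + 2) * (K + 2) ^ 2 := by positivity
  have h12 : N ^ ((1 : ℝ) / 2) ≤ N := by
    have := Real.rpow_le_rpow_of_exponent_le hN (by norm_num : (1 : ℝ) / 2 ≤ 1)
    rwa [Real.rpow_one] at this
  refine ⟨?_, ?_, ?_, ?_⟩
  · calc r * (K * l + (K * l + 1 + (n + 1))) * (K * l + 1 + (n + 1)) ^ 2 ≤
        r * ((2 * K + 2) * l) * ((K + 2) * l) ^ 2 := by gcongr
      _ = (2 * K + 2) * (K + 2) ^ 2 * (r * l ^ 3) := by ring
      _ ≤ (2 * K + 2) * (K + 2) ^ 2 * (|C| * N ^ ((3 : ℝ) / 2)) := by gcongr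
      _ = (2 * K + 2) * (K + 2) ^ 2 * 1 * (|C| * N ^ ((3 : ℝ) / 2)) := by ring
      _ ≤ (2 * K + 2) * (K + 2) ^ 2 * (1 + K') * (|C| * N ^ ((3 : ℝ) / 2)) := by gcongr
      _ = _ := by ring
  · calc (K * l + (K * l + 1 + (n + 1))) * (K * l + 1 + 1) * (K * l + 1 + (n + 1)) ≤
        ((2 * K + 2) * l) * ((K + 2) * l) * ((K + 2) * l) := by gcongr
      _ = (2 * K + 2) * (K + 2) ^ 2 * l ^ 3 := by ring
      _ ≤ (2 * K + 2) * (K + 2) ^ 2 * (|C| * N ^ ((1 : ℝ) / 2)) := by gcongr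
      _ = (2 * K + 2) * (K + 2) ^ 2 * 1 * (|C| * N ^ ((1 : ℝ) / 2)) := by ring
      _ ≤ (2 * K + 2) * (K + 2) ^ 2 * (1 + K') * (|C| * N ^ ((1 : ℝ) / 2)) := by gcongr
      _ = _ := by ring
  · have h4 : l * l ^ 2 ≤ |C| * N := by
      calc l * l ^ 2 = l ^ 3 := by ring
        _ ≤ |C| * N ^ ((1 : ℝ) / 2) := c2
        _ ≤ |C| * N := mul_le_mul_of_nonneg_left h12 hC
    calc (a + K' * l) * (K * l + 1 + (n + 1)) ^ 2 ≤ (a + K' * l) * ((K + 2) * l) ^ 2 := by
          gcongr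
      _ = (K + 2) ^ 2 * (a * l ^ 2 + K' * (l * l ^ 2)) := by ring
      _ ≤ (K + 2) ^ 2 * (|C| * N + K' * (|C| * N)) := by gcongr
      _ = 1 * ((K + 2) ^ 2 * (1 + K') * |C| * N) := by ring
      _ ≤ (2 * K + 2) * ((K + 2) ^ 2 * (1 + K') * |C| * N) := by
        refine mul_le_mul_of_nonneg_right (by linarith) ?_
        have : 0 ≤ N := by linarith
        positivity
      _ = _ := by ring
  · have h5 : l ≤ l ^ 3 := by
      calc l = l ^ 1 := (pow_one l).symm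
        _ ≤ l ^ 3 := pow_le_pow_right₀ hl1 (by norm_num)
    calc K * l + (K * l + 1 + (n + 1)) ≤ (2 * K + 2) * l := hS
      _ ≤ (2 * K + 2) * l ^ 3 := by gcongr
      _ ≤ (2 * K + 2) * (|C| * N ^ ((1 : ℝ) / 2)) := by gcongr
      _ = _ := by ring

section

variable {F : List Bool → List Bool} (hF : D.Is F) (hb : code M.blank = [])
  (hc : Function.Injective code)

include hF hb hc

/-- **Good computations.** -/
theorem good_core (B : ℕ) : ∃ K : ℕ, ∀ (E : Decomp) (c : ℕ) (_ : 0 < c) (C : ℝ) (K' : ℕ),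
    ∃ (C' : ℝ) (n₁ : ℕ),
    ∀ (w y : List Bool) (t b a r : ℕ) (S : ℕ → Prop), n₁ ≤ w.length →
    (F w ++ y).length + 2 ≤ B * (w.length + 1) → AcceptsAt M (F w ++ y) t →
    (∀ u ≤ t, ∀ i, -2 ^ b ≤ (M.run (F w ++ y) u).head i ∧
      (M.run (F w ++ y) u).head i < 2 ^ b) →
    (∀ u v : ℕ, u ≤ v → v ≤ t → (∀ m, u < m → m < v → ¬S m) → ink M (F w ++ y) u v ≤ r) →
    (∀ g m, S m → (machT D M code).Short E w y g (K * (b + (Nat.log 2 w.length + 1)))
      (a + (K + K') * (b + (Nat.log 2 w.length + 1))) (c * w.length) 0 []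
        (w.length + 1 + (k + 2) * m)) →
    (r : ℝ) * ((b : ℝ) + ((Nat.log 2 w.length : ℝ) + 1)) ^ 3 ≤
      C * ((w.length : ℝ) + 1) ^ ((3 : ℝ) / 2) →
    ((b : ℝ) + ((Nat.log 2 w.length : ℝ) + 1)) ^ 3 ≤ C * ((w.length : ℝ) + 1) ^ ((1 : ℝ) / 2) →
    (a : ℝ) * ((b : ℝ) + ((Nat.log 2 w.length : ℝ) + 1)) ^ 2 ≤ C * ((w.length : ℝ) + 1) →
    (machT D M code).Good E c C' w y := by
  obtain ⟨K, hK⟩ := fits_mach hF hb hc B
  refine ⟨K, fun E c hc0 C K' => ⟨(2 * (K : ℝ) + 2) * ((K : ℝ) + 2) ^ 2 *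
    (1 + ((K + K' : ℕ) : ℝ)) * |C|, ⌈((2 * (K : ℝ) + 2) * |C|) ^ 2⌉₊, ?_⟩⟩
  intro w y t b a r S hw hB hacc hbox hst hS b1 b2 b3
  have hN : (1 : ℝ) ≤ (w.length : ℝ) + 1 := by
    have : (0 : ℝ) ≤ w.length := Nat.cast_nonneg _
    linarith
  obtain ⟨q1, q2, q3, q4⟩ := bounds (C := C) (N := (w.length : ℝ) + 1) (K := K)
    (K' := ((K + K' : ℕ) : ℝ)) (b := b) (n := Nat.log 2 w.length) (r := r) (a := a)
    (Nat.cast_nonneg _) (Nat.cast_nonneg _) (Nat.cast_nonneg _) (Nat.cast_nonneg _)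
    (Nat.cast_nonneg _) (Nat.cast_nonneg _) hN b1 b2 b3
  have hrun : ∀ u ≤ t + 1, ∃ u' ≤ t, M.run (F w ++ y) u = M.run (F w ++ y) u' := by
    intro u hu
    rcases Nat.lt_or_ge t u with h | h
    · have : u = t + 1 := by omega
      exact ⟨t, le_rfl, by rw [this, run_halt M hacc.1]⟩
    · exact ⟨u, h, rfl⟩
  have hbox' : ∀ u ≤ t + 1, ∀ i, -2 ^ b ≤ (M.run (F w ++ y) u).head i ∧
      (M.run (F w ++ y) u).head i < 2 ^ b := by
    intro u hu i
    obtain ⟨u', hu', e⟩ := hrun u hu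
    rw [e]
    exact hbox u' hu' i
  set l := b + (Nat.log 2 w.length + 1) with hl
  have hcast : ((l : ℕ) : ℝ) = (b : ℝ) + ((Nat.log 2 w.length : ℝ) + 1) := by
    rw [hl]
    push_cast
    ring
  refine ⟨fun _ => false, w.length + 1 + (k + 2) * (t + 1), K * l, a + (K + K') * l, r,
    K * l + 1, 0, 0, 1, fun i => if i = 0 then 0 else w.length + 1 + (k + 2) * (t + 1),
    fun _ => [], ?_, ?_, ?_, ?_, Nat.one_pos, le_rfl, ?_, ?_, ?_, ?_, ?_, ?_⟩
  · exact (accepts_iff hF hb hc w y _ _).2 ⟨t, rfl, hacc⟩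
  · refine hK w y _ (t + 1) b _ hB hbox' ?_
    have h1 : K * l ≤ (K + K') * l := Nat.mul_le_mul_right _ (Nat.le_add_right _ _)
    exact h1.trans (Nat.le_add_left _ _)
  · simp
  · simp
  · intro i hi
    have hi0 : i = 0 := by omega
    subst hi0
    simp only [if_true, Nat.zero_add, one_ne_zero, if_false]
    refine ⟨Nat.zero_le _, ?_, ?_, ?_⟩
    · rw [guesses_mach]
      exact Nat.zero_le _
    · intro u _ _
      exact Or.inl rfl
    · intro u v _ huv hv hns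
      refine ⟨(msgs_mach hF hb hc w y _ u v).trans ?_, Or.inr (Nat.lt_succ_self _)⟩
      set p := mT k w.length u with hp
      set q := mT k w.length v with hq
      have hpq : p ≤ q := mT_mono huv
      have hqt : q ≤ t + 1 := by
        have h1 := mT_mono (k := k) (n := w.length) hv
        rw [show w.length + 1 + (k + 2) * (t + 1) = w.length + 1 + (k + 2) * (t + 1) + 0 from rfl,
          mT_at _ _ _ (Nat.zero_le _)] at h1
        exact h1
      have hno : ∀ m, p < m → m < q → ¬S m := by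
        intro m h1 h2 h3
        refine hns (w.length + 1 + (k + 2) * m) ?_ ?_ (hS _ m h3)
        · by_contra h4
          have h5 := mT_mono (k := k) (n := w.length) (Nat.le_of_not_lt h4)
          rw [show w.length + 1 + (k + 2) * m = w.length + 1 + (k + 2) * m + 0 from rfl,
            mT_at _ _ _ (Nat.zero_le _)] at h5
          omega
        · by_contra h4
          have h5 := mT_mono (k := k) (n := w.length) (Nat.le_of_not_lt h4)
          rw [show w.length + 1 + (k + 2) * m = w.length + 1 + (k + 2) * m + 0 from rfl,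
            mT_at _ _ _ (Nat.zero_le _)] at h5
          omega
      rcases Nat.lt_or_ge t q with h1 | h1
      · obtain h2 : q = t + 1 := by omega
        rcases Nat.lt_or_ge t p with h3 | h3
        · have h4 : p = q := by omega
          rw [h4, ink_self]
          exact Nat.zero_le _
        · rw [h2]
          exact (ink_succ hacc p).trans (hst p t h3 le_rfl fun m h4 h5 => hno m h4 (by omega))
      · exact hst p q hpq h1 hno
  · intro i hi0 hi
    omega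
  · push_cast at q1 ⊢
    rw [hcast]
    exact q1
  · push_cast at q2 ⊢
    rw [hcast]
    exact q2
  · push_cast at q3 ⊢
    rw [hcast]
    exact q3
  · have hfin : (K : ℝ) * ((b : ℝ) + ((Nat.log 2 w.length : ℝ) + 1)) +
        ((K : ℝ) * ((b : ℝ) + ((Nat.log 2 w.length : ℝ) + 1)) + 1 +
          ((Nat.log 2 w.length : ℝ) + 1)) ≤ (w.length : ℝ) + 1 := by
      have hNN : ((2 * (K : ℝ) + 2) * |C|) ^ 2 ≤ (w.length : ℝ) + 1 := by
        have h2 : (⌈((2 * (K : ℝ) + 2) * |C|) ^ 2⌉₊ : ℝ) ≤ w.length := by exact_mod_cast hw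
        have h3 := Nat.le_ceil (((2 * (K : ℝ) + 2) * |C|) ^ 2)
        linarith
      set N : ℝ := (w.length : ℝ) + 1
      have hsq : (N ^ ((1 : ℝ) / 2)) ^ 2 = N := by
        rw [← Real.rpow_natCast, ← Real.rpow_mul (by linarith)]
        norm_num
      have hp : 0 ≤ N ^ ((1 : ℝ) / 2) := Real.rpow_nonneg (by linarith) _
      have hroot : (2 * (K : ℝ) + 2) * |C| ≤ N ^ ((1 : ℝ) / 2) := by
        refine (sq_le_sq₀ (by positivity) hp).1 ?_
        rw [hsq]
        exact hNN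
      calc _ ≤ (2 * (K : ℝ) + 2) * |C| * N ^ ((1 : ℝ) / 2) := q4
        _ ≤ N ^ ((1 : ℝ) / 2) * N ^ ((1 : ℝ) / 2) := by gcongr
        _ = N := by rw [← sq, hsq]
    have h1 : (0 + 1) * (0 + K * l + (K * l + 1 + (Nat.log 2 w.length + 1))) ≤ w.length + 1 := by
      have h2 : (((0 + 1) * (0 + K * l + (K * l + 1 + (Nat.log 2 w.length + 1))) : ℕ) : ℝ) ≤
          ((w.length + 1 : ℕ) : ℝ) := by
        push_cast
        rw [hcast]
        linarith
      exact_mod_cast h2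
    exact h1.trans (Nat.le_mul_of_pos_left _ hc0)

end

end Pool.Agent.Helper31.Ink
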