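import Pool.Agent.Helper92.RF.Goals

/-!
# Hardness for machines with messages, with two constants
-/

namespace Pool.Agent.Helper31.Ink

open Pool.Agent.Helper65.LinSpace Pool.Agent.Helper78.Mpc Pool.Agent.Helper28.Ram
open Pool.Agent.Helper81.Sus2 (NBM Decomp NF)
open Pool.Agent.Helper81.Sus3 (acc Parts exists_good)
open Pool.Agent.Helper81.Gen4 (Q Q_mono)
open Pool.Agent.Helper31.Gen5 (Hard q_hard)
open Pool.Agent.Helper31.MHS (drp drp_num ls_drp q_take)

/-- The simulation, with the quantifiers for the last letters of `y` (even codes) or without them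
(odd codes). -/
noncomputable def acc3 (Z : Pool.Agent.Helper81.Tok3.Sim) (c c' u x y T : ℕ) : ℕ :=
  acc Z c' (u / 2) x (ifz (u % 2) y (drp (3 * c) x y)) T

theorem ls_acc3 (Z : Pool.Agent.Helper81.Tok3.Sim) (H : Parts) (c c' : ℕ) :
    LS (fun z : ℕ × ℕ × ℕ × ℕ => acc3 Z c c' z.1 z.2.1 z.2.2.1 z.2.2.2) := by
  have h1 : LS (fun z : ℕ × ℕ × ℕ × ℕ => ifz (z.1 % 2) z.2.2.1 (drp (3 * c) z.2.1 z.2.2.1)) :=
    LS.ifz (by fun_prop) (by fun_prop)
      (LS.comp (g := fun z : ℕ × ℕ => drp (3 * c) z.1 z.2)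
        (f := fun z : ℕ × ℕ × ℕ × ℕ => (z.2.1, z.2.2.1)) (ls_drp (3 * c)) (by fun_prop))
  exact LS.comp (g := fun z : ℕ × ℕ × ℕ × ℕ => acc Z c' z.1 z.2.1 z.2.2.1 z.2.2.2)
    (f := fun z : ℕ × ℕ × ℕ × ℕ => (z.1 / 2, z.2.1,
      ifz (z.1 % 2) z.2.2.1 (drp (3 * c) z.2.1 z.2.2.1), z.2.2.2))
    (Pool.Agent.Helper81.Sus3.LS.acc Z H.lsw H.lse H.prm c') (by fun_prop)

/-- Hardness for machines with messages and described memory, with and without quantifiers, with
different constants. -/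
theorem nbm_hard2 (Z : Pool.Agent.Helper81.Tok3.Sim) (H : Parts) (c c' : ℕ) (hc : 0 < c) :
    ∃ L : Set (List Bool), DLINSPACE L ∧
      (∀ (A : NBM) (E : Decomp) (C : ℝ),
        Hard L c (fun w α => Q (c * w.length) fun v => ∃ g r, A.AcceptsAt w (α ++ v) g r)
          (fun w α => Q (c * w.length) fun v => A.Good E c' C w (α ++ v))) ∧
      ∀ (A : NBM) (E : Decomp) (C : ℝ),
        Hard L c (fun w α => ∃ g r, A.AcceptsAt w α g r) (fun w α => A.Good E c' C w α) := by
  obtain ⟨L, h1, h4⟩ := q_hard (acc3 Z c c') (NF c') (ls_acc3 Z H c c')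
    (Pool.Agent.Helper81.Sus2.LS.NF c') c c hc
  refine ⟨L, h1, fun A E C => ?_, fun A E C => ?_⟩
  · obtain ⟨e, n₀, he⟩ := exists_good Z H c' A E C
    refine h4 (fun w y => ∃ g r, A.AcceptsAt w y g r) (A.Good E c' C) ⟨2 * e, n₀, ?_⟩
    intro w y hw
    have e1 : 2 * e / 2 = e := by omega
    have e2 : 2 * e % 2 = 0 := by omega
    simp only [acc3, e1, e2, ifz, if_true]
    exact he w y hw
  · obtain ⟨e, n₀, he⟩ := exists_good Z H c' A E C
    have h := h4
      (fun w y => ∃ g r, A.AcceptsAt w (y.take (y.length - 3 * c * w.length)) g r)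
      (fun w y => A.Good E c' C w (y.take (y.length - 3 * c * w.length)))
      ⟨2 * e + 1, n₀, ?_⟩
    · exact h.mono (fun w α h5 => (q_take c w α fun y => ∃ g r, A.AcceptsAt w y g r).1 h5)
        (fun w α h5 => (q_take c w α fun y => A.Good E c' C w y).2 h5)
    · intro w y hw
      have e1 : (2 * e + 1) / 2 = e := by omega
      have e2 : (2 * e + 1) % 2 = 1 := by omega
      simp only [acc3, e1, e2, ifz, one_ne_zero, if_false, drp_num]
      exact he w _ hw

/-- The goal of `Helper92/RF/Goals`. -/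
theorem hardGoal : Pool.Agent.Helper92.RF.HardGoal := fun c c' hc =>
  nbm_hard2 Pool.Agent.Helper81.Tok3.theSim Pool.Agent.Helper81.Sus3.parts c c' hc

end Pool.Agent.Helper31.Ink
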