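import Pool.Agent.Helper31.Ink.Code
import Pool.Agent.Helper92.RE.TmL

/-!
# Turing machines on the words `F w y` as machines with messages

There is a message only if the step of the Turing machine changes a symbol on a work tape.
-/

namespace Pool.Agent.Helper31.Ink

open Pool.Agent.Helper65.LinSpace Pool.Agent.Helper78.Mpc Pool.Agent.Helper28.Ram
open Pool.Agent.Helper81.Sus2
open Pool.Agent.Helper92.RE (LD sto pO nO uO vO sto_pos sto_half pO_sto nO_sto uO_sto vO_sto
  ls_sto ls_pO ls_nO ls_uO ls_vO adr ltv ls_adr ls_ltv optL letL)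
open Pool.Agent.Helper81.RP (lett wd wf num_wd wd_num wf_eq linComp_wf ls_pair hd tl ls_hd ls_tl
  hd_eq tl_eq)
open Pool.Agent.Helper31.TMS (pos sym ls_pos)

variable {k : ℕ} (D : LD) (M : TM k) (code : M.Sym → List Bool)

/-- The finite part of a state: the control state, the symbols which were read, and the letter which
was read. -/
abbrev Inf (M : TM k) : Type := M.State × (Fin k → M.Sym) × Option Bool

instance finite_inf (M : TM k) : Finite (Inf M) := by
  have := M.finState
  have := M.finSym
  infer_instance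

/-- At the start of a step. -/
def fresh (σ : M.State) : Inf M := (σ, fun _ => M.blank, none)

/-! ### Reading of a symbol -/

/-- The finite part after the symbol with the number `c` was read on the tape `j`. -/
noncomputable def rdT (j : Fin k) (t : Inf M) (c : ℕ) : ℕ :=
  haveI := M.finSym
  selL (fun s => num (code s)) (fun s (_ : ℕ) => ix (ι := Inf M) (t.1, Function.update t.2.1 j s, t.2.2))
    (allE M.Sym) c 0

variable {M code} in
theorem rdT_eq (hc : Function.Injective code) (j : Fin k) (t : Inf M) (s : M.Sym) :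
    rdT M code j t (num (code s)) = ix (ι := Inf M) (t.1, Function.update t.2.1 j s, t.2.2) := by
  have := M.finSym
  unfold rdT
  exact selL_eq (g := fun s => num (code s))
    (fun _ _ h => hc (Pool.Agent.Helper78.Avg.num_injective h)) _ (mem_allE s) 0

theorem ls_rdT {α : Type} [Ctx α] (j : Fin k) (t : Inf M) {c : α → ℕ} (hc : LS c) :
    LS (fun z => rdT M code j t (c z)) := by
  have := M.finSym
  unfold rdT
  have h : LS (fun c : ℕ => selL (fun s => num (code s))
      (fun s (_ : ℕ) => ix (ι := Inf M) (t.1, Function.update t.2.1 j s, t.2.2)) (allE M.Sym) c 0) := by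
    have h1 := ls_selL (α := ℕ) (fun s => num (code s))
      (G := fun s (_ : ℕ) => ix (ι := Inf M) (t.1, Function.update t.2.1 j s, t.2.2))
      (fun s => LS.const _) (allE M.Sym) (i := fun c => c) (by fun_prop)
    have e : (fun c : ℕ => selL (fun s => num (code s))
        (fun s (_ : ℕ) => ix (ι := Inf M) (t.1, Function.update t.2.1 j s, t.2.2)) (allE M.Sym) c 0) =
        fun c => selL (fun s => num (code s))
        (fun s (_ : ℕ) => ix (ι := Inf M) (t.1, Function.update t.2.1 j s, t.2.2)) (allE M.Sym) c c := by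
      funext c
      generalize allE M.Sym = l
      induction l with
      | nil => rfl
      | cons s l ih =>
        show ifz _ (selL _ _ l c 0) _ = ifz _ (selL _ _ l c c) _
        rw [ih]
    rw [e]
    exact h1
  exact LS.comp (g := fun c : ℕ => selL (fun s => num (code s))
      (fun s (_ : ℕ) => ix (ι := Inf M) (t.1, Function.update t.2.1 j s, t.2.2)) (allE M.Sym) c 0) h hc

/-! ### Reading of a letter -/

/-- The finite part after the letter was read: `c` is the number of the two letters. -/
noncomputable def ltT (t : Inf M) (n p c : ℕ) : ℕ :=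
  ifz p (ix (ι := Inf M) (t.1, t.2.1, none)) (ifz (ltv D n (p - 1) c) (ix (ι := Inf M) (t.1, t.2.1, none))
    (ifz (ltv D n (p - 1) c - 1) (ix (ι := Inf M) (t.1, t.2.1, some false))
      (ix (ι := Inf M) (t.1, t.2.1, some true))))

theorem ltT_eq (t : Inf M) (n p : ℕ) (a b : Option Bool) :
    ltT D M t n p (lett a + 3 * lett b) = ix (ι := Inf M) (t.1, t.2.1, letL D a b p n) := by
  unfold ltT letL optL ifz
  by_cases h0 : p = 0
  · rw [if_pos h0, if_pos h0]
  · rw [if_neg h0, if_neg h0]
    by_cases h1 : ltv D n (p - 1) (lett a + 3 * lett b) = 0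
    · rw [if_pos h1, if_pos h1]
    · rw [if_neg h1, if_neg h1]
      by_cases h2 : ltv D n (p - 1) (lett a + 3 * lett b) = 1
      · rw [if_pos h2, if_pos (by omega)]
      · rw [if_neg h2, if_neg (by omega)]

theorem ls_ltT {α : Type} [Ctx α] (t : Inf M) {n p c : α → ℕ} (hn : LS n) (hp : LS p)
    (hc : LS c) : LS (fun z => ltT D M t (n z) (p z) (c z)) := by
  unfold ltT
  have h1 : LS (fun z => ltv D (n z) (p z - 1) (c z)) := ls_ltv D hn (by fun_prop) hc
  exact LS.ifz hp (LS.const _) (LS.ifz h1 (LS.const _) (LS.ifz (by fun_prop) (LS.const _)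
    (LS.const _)))

/-! ### The end of a step -/

/-- The positions of the heads after a step. -/
def mvH (d : Fin k → Dir) (h : ℕ) : ℕ :=
  hsL (((List.finRange k).map fun j (h : ℕ) => mvZ (d j) (prj j h)).map fun f => f h)

theorem ls_mvH {α : Type} [Ctx α] (d : Fin k → Dir) {h : α → ℕ} (hh : LS h) :
    LS (fun z => mvH d (h z)) := by
  have h1 : LS (fun h : ℕ => mvH d h) := by
    refine ls_hsL _ fun f hf => ?_
    obtain ⟨j, _, rfl⟩ := List.mem_map.1 hf
    exact ls_mvZ (d j) (ls_prj (α := ℕ) j (f := fun h => h) (by fun_prop))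
  exact LS.comp (g := fun h => mvH d h) h1 hh

/-- The number of the positions of the heads. -/
def hsF (h : Fin k → ℤ) : ℕ := hsL ((List.finRange k).map fun j => zig (h j))

theorem prj_hsF (h : Fin k → ℤ) (j : Fin k) : prj j (hsF h) = zig (h j) := by
  refine prj_hsL ?_
  rw [List.getElem?_map, List.getElem?_eq_getElem (by simp)]
  simp

theorem mvH_hsF (d : Fin k → Dir) (h : Fin k → ℤ) :
    mvH d (hsF h) = hsF fun j => h j + (d j).toInt := by
  unfold mvH
  conv_rhs => unfold hsF
  congr 1
  rw [List.map_map]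
  refine List.map_congr_left fun j _ => ?_
  show mvZ (d j) (prj j (hsF h)) = _
  rw [prj_hsF, mvZ_zig]

open Classical in
/-- The next state. -/
noncomputable def resN (t : Inf M) (n q : ℕ) : ℕ :=
  match M.step t.1 t.2.2 t.2.1 with
  | none => sto (if t.1 ∈ M.accept then 1 else 0) 1 n (ix (fresh M t.1)) q
  | some x => sto 0 1 n (ix (fresh M x.1)) (Nat.pair (pos t.2.2 x.2.1 q.unpair.1)
      (mvH (fun j => (x.2.2 j).2) q.unpair.2))

theorem ls_resN {α : Type} [Ctx α] (t : Inf M) {n q : α → ℕ} (hn : LS n) (hq : LS q) :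
    LS (fun z => resN M t (n z) (q z)) := by
  classical
  cases hs : M.step t.1 t.2.2 t.2.1 with
  | none =>
    have e : (fun z => resN M t (n z) (q z)) = fun z =>
        sto (if t.1 ∈ M.accept then 1 else 0) 1 (n z) (ix (fresh M t.1)) (q z) := by
      funext z
      unfold resN
      rw [hs]
    rw [e]
    exact ls_sto (LS.const _) (LS.const _) hn (LS.const _) hq
  | some x =>
    have e : (fun z => resN M t (n z) (q z)) = fun z =>
        sto 0 1 (n z) (ix (fresh M x.1)) (Nat.pair (pos t.2.2 x.2.1 (q z).unpair.1)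
          (mvH (fun j => (x.2.2 j).2) (q z).unpair.2)) := by
      funext z
      unfold resN
      rw [hs]
    rw [e]
    have h1 : LS (fun z => (q z).unpair.1) := by fun_prop
    have h2 : LS (fun z => (q z).unpair.2) := by fun_prop
    have h3 : LS (fun z => pos t.2.2 x.2.1 (q z).unpair.1) :=
      LS.comp (g := pos t.2.2 x.2.1) (ls_pos _ _) h1
    exact ls_sto (LS.const _) (LS.const _) hn (LS.const _)
      (ls_pair h3 (ls_mvH (fun j => (x.2.2 j).2) h2))

open Classical in
/-- `1` if the step changes a symbol. -/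
noncomputable def chg (t : Inf M) : ℕ :=
  if ∃ j, sym M t.1 t.2.2 t.2.1 j ≠ t.2.1 j then 1 else 0

/-- The new content `c` of the register with the number `m`, if the heads are on the cells `h`. -/
noncomputable def wrN (t : Inf M) (m c h : ℕ) : List (Fin k) → ℕ
  | [] => c
  | j :: l => ifz (eq01 m (2 * Nat.pair j (prj j h) + 1)) (wrN t m c h l)
      (num (code (sym M t.1 t.2.2 t.2.1 j)))

theorem ls_wrN {α : Type} [Ctx α] (t : Inf M) {m c h : α → ℕ} (hm : LS m) (hc : LS c) (hh : LS h)
    (l : List (Fin k)) : LS (fun z => wrN M code t (m z) (c z) (h z) l) := by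
  induction l with
  | nil => exact hc
  | cons j l ih =>
    have h1 := ls_prj (j : ℕ) hh
    have h2 := ls_pair (LS.const (j : ℕ)) h1
    show LS (fun z => ifz (eq01 (m z) (2 * Nat.pair j (prj j (h z)) + 1))
      (wrN M code t (m z) (c z) (h z) l) (num (code (sym M t.1 t.2.2 t.2.1 j))))
    exact LS.ifz (LS.eq01 hm (by fun_prop)) ih (LS.const _)

/-! ### The functions of the machine -/

/-- The name of the register which is read. -/
noncomputable def addrT (x : ℕ) : ℕ :=
  ifz (pO x) (2 * bitsN (nO x)) (ifz (eq01 (pO x) (k + 1))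
    (selL (fun j : Fin k => (j : ℕ)) (fun j x => 2 * Nat.pair j (prj j (vO x).unpair.2) + 1)
      (List.finRange k) (pO x - 1) x)
    (2 * bitsN (adr D (nO x) ((vO x).unpair.1 - 1))))

/-- The new state. -/
noncomputable def nextT (x : ℕ) : ℕ :=
  ifz (pO (hd x)) (ifz ((tl x / 2 - 1) % 3) (sto 0 1 (nO (hd x)) (ix (fresh M M.start)) 0)
    (sto 0 0 (nO (hd x) + 1) 0 0))
  (ifz (eq01 (pO (hd x)) (k + 1)) (ifz (eq01 (pO (hd x)) (k + 2))
    (sto 0 (pO (hd x) + 1) (nO (hd x)) (selL (fun j : Fin k => (j : ℕ))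
      (fun j x => selT (fun t x => rdT M code j t (tl x / 2)) (uO (hd x)) x)
      (List.finRange k) (pO (hd x) - 1) x) (vO (hd x)))
    (selT (fun t x => resN M t (nO (hd x)) (vO (hd x))) (uO (hd x)) x))
    (sto 0 (k + 2) (nO (hd x)) (selT (fun t x =>
      ltT D M t (nO (hd x)) (vO (hd x)).unpair.1 (tl x / 2 - 1)) (uO (hd x)) x) (vO (hd x))))

/-- `1` for messages. -/
noncomputable def msgT (x : ℕ) : ℕ :=
  ifz (eq01 (pO x) (k + 2)) 0 (selT (fun t (_ : ℕ) => chg M t) (uO x) x)

/-- The new content. -/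
noncomputable def writeT (x : ℕ) : ℕ :=
  selT (fun t x => wrN M code t (hd (tl x)) (tl (tl x)) (vO (hd x)).unpair.2 (List.finRange k))
    (uO (hd x)) x

theorem ls_addrT : LS (addrT (k := k) D) := by
  have hp : LS (fun x : ℕ => pO x) := ls_pO (by fun_prop)
  have hn : LS (fun x : ℕ => nO x) := ls_nO (by fun_prop)
  have hv : LS (fun x : ℕ => vO x) := ls_vO (by fun_prop)
  have h1 : LS (fun x : ℕ => (vO x).unpair.1 - 1) := by fun_prop
  have h2 : LS (fun x : ℕ => (vO x).unpair.2) := by fun_prop
  have h3 := ls_adr D hn h1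
  have h4 : LS (fun x : ℕ => bitsN (nO x)) := LS.bitsN hn
  have h5 : LS (fun x : ℕ => bitsN (adr D (nO x) ((vO x).unpair.1 - 1))) := LS.bitsN h3
  have h6 := ls_selL (fun j : Fin k => (j : ℕ))
    (G := fun j x => 2 * Nat.pair j (prj j (vO x).unpair.2) + 1) (fun j => by
      have h7 := ls_pair (LS.const (j : ℕ)) (ls_prj (j : ℕ) h2)
      fun_prop) (List.finRange k) (i := fun x => pO x - 1) (by fun_prop)
  exact LS.ifz hp (by fun_prop) (LS.ifz (LS.eq01 hp (LS.const _)) h6 (by fun_prop))

theorem ls_nextT : LS (nextT D M code) := by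
  have hh := ls_hd
  have ht := ls_tl
  have hp : LS (fun x : ℕ => pO (hd x)) := ls_pO hh
  have hn : LS (fun x : ℕ => nO (hd x)) := ls_nO hh
  have hu : LS (fun x : ℕ => uO (hd x)) := ls_uO hh
  have hv : LS (fun x : ℕ => vO (hd x)) := ls_vO hh
  have hc : LS (fun x : ℕ => tl x / 2) := by
    have h1 : LS (fun x : ℕ => tl x) := ht
    fun_prop
  have hc1 : LS (fun x : ℕ => tl x / 2 - 1) := by fun_prop
  have hi : LS (fun x : ℕ => (vO (hd x)).unpair.1) := by fun_prop
  have g1 := ls_sto (LS.const (α := ℕ) 0) (LS.const 1) hn (LS.const (ix (fresh M M.start)))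
    (LS.const 0)
  have g2 := ls_sto (LS.const (α := ℕ) 0) (LS.const 0) (LS.add hn (LS.const 1)) (LS.const 0)
    (LS.const 0)
  have g3 := ls_selL (fun j : Fin k => (j : ℕ))
    (G := fun j x => selT (fun t x => rdT M code j t (tl x / 2)) (uO (hd x)) x) (fun j =>
      ls_selT (G := fun t x => rdT M code j t (tl x / 2)) (fun t => ls_rdT M code j t hc) hu)
    (List.finRange k) (i := fun x => pO (hd x) - 1) (by fun_prop)
  have g4 := ls_sto (LS.const (α := ℕ) 0) (LS.add hp (LS.const 1)) hn g3 hv
  have g5 := ls_selT (G := fun (t : Inf M) x => resN M t (nO (hd x)) (vO (hd x)))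
    (fun t => ls_resN M t hn hv) hu
  have g6 := ls_selT (G := fun (t : Inf M) x =>
    ltT D M t (nO (hd x)) (vO (hd x)).unpair.1 (tl x / 2 - 1))
    (fun t => ls_ltT D M t hn hi hc1) hu
  have g7 := ls_sto (LS.const (α := ℕ) 0) (LS.const (k + 2)) hn g6 hv
  exact LS.ifz hp (LS.ifz (by fun_prop) g1 g2)
    (LS.ifz (LS.eq01 hp (LS.const _)) (LS.ifz (LS.eq01 hp (LS.const _)) g4 g5) g7)

theorem ls_msgT : LS (msgT M) := by
  have hp : LS (fun x : ℕ => pO x) := ls_pO (by fun_prop)
  have hu : LS (fun x : ℕ => uO x) := ls_uO (by fun_prop)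
  exact LS.ifz (LS.eq01 hp (LS.const _)) (LS.const 0)
    (ls_selT (G := fun t (_ : ℕ) => chg M t) (fun t => LS.const _) hu)

theorem ls_writeT : LS (writeT M code) := by
  have hh := ls_hd
  have ht := ls_tl
  have hu : LS (fun x : ℕ => uO (hd x)) := ls_uO hh
  have hv : LS (fun x : ℕ => vO (hd x)) := ls_vO hh
  have hi : LS (fun x : ℕ => (vO (hd x)).unpair.2) := by fun_prop
  have h3 : LS (fun x : ℕ => hd (tl x)) := LS.comp (g := hd) hh ht
  have h4 : LS (fun x : ℕ => tl (tl x)) := LS.comp (g := tl) ht ht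
  exact ls_selT (G := fun t x =>
    wrN M code t (hd (tl x)) (tl (tl x)) (vO (hd x)).unpair.2 (List.finRange k))
    (fun t => ls_wrN M code t h3 h4 hi _) hu

theorem msgT_le (x : ℕ) : msgT M x ≤ 1 := by
  have h : ∀ (l : List (Inf M)) (i : ℕ), selL ix (fun t (_ : ℕ) => chg M t) l i x ≤ 1 := by
    intro l i
    induction l with
    | nil => exact Nat.zero_le _
    | cons t l ih =>
      show ifz (eq01 i (ix t)) (selL ix (fun t (_ : ℕ) => chg M t) l i x) (chg M t) ≤ 1
      unfold ifz
      split_ifs
      · exact ih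
      · unfold chg
        split_ifs <;> omega
  unfold msgT
  unfold ifz
  split_ifs
  · omega
  · exact h _ _

/-- The machine with messages. -/
noncomputable def machT : NBM where
  start := wd (sto 0 0 0 0 0)
  init a b := wd (1 + lett a + 3 * lett b)
  addr := wf (addrT (k := k) D)
  next := wf (nextT D M code)
  write := wf (writeT M code)
  ask _ := false
  msg u := decide (msgT M (num u) = 1)
  reset _ := false
  addr_lin := linComp_wf (ls_addrT D)
  next_lin := linComp_wf (ls_nextT D M code)
  write_lin := linComp_wf (ls_writeT M code)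
  ask_lin := Pool.Agent.Helper31.TMS.linComp_of_ls (F := fun _ => 2) (LS.const 2) fun _ => rfl
  msg_lin := by
    have h0 := ls_msgT M
    have h1 : LS (fun x : ℕ => msgT M x) := h0
    refine Pool.Agent.Helper31.TMS.linComp_of_ls (F := fun x => 2 + eq01 (msgT M x) 1)
      (by fun_prop) fun u => ?_
    unfold eq01
    by_cases h : msgT M (num u) = 1
    · simp [h, num]
    · simp [h, num]
  reset_lin := Pool.Agent.Helper31.TMS.linComp_of_ls (F := fun _ => 2) (LS.const 2) fun _ => rfl

end Pool.Agent.Helper31.Ink
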