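import Pool.Agent.Helper31.Ink.Desc
import Pool.Agent.Helper31.Ink.Hard
import Pool.Agent.Helper31.Conv.Final
import Pool.Agent.Helper92.KR.Final

/-!
# Hardness for Turing machines which rarely change a symbol, with descriptions of their tapes
-/

namespace Pool.Agent.Helper31.Ink

open Pool.Agent.Helper65.LinSpace Pool.Agent.Helper78.Mpc Pool.Agent.Helper28.Ram
open Pool.Agent.Helper81.Sus2 (NBM Decomp)
open Pool.Agent.Helper81.Gen4 (Q Q_mono)
open Pool.Agent.Helper31.Gen5 (Hard)
open Pool.Agent.Helper31.TMS (AcceptsAt)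
open Pool.Agent.Helper92.RE (hard_adv)
open Pool.Agent.Helper92.KR (idLD idLD_is)
open Pool.Agent.Helper31.Conv (conv)

/-- Hardness for machines with messages gives hardness for Turing machines, with quantifiers. -/
theorem ink_hard_q {c : ℕ} (hc : 0 < c) {L : Set (List Bool)}
    (h : ∀ (A : NBM) (E : Decomp) (C : ℝ),
      Hard L c (fun w α => Q (c * w.length) fun v => ∃ g r, A.AcceptsAt w (α ++ v) g r)
        (fun w α => Q (c * w.length) fun v => A.Good E (2 * c + 1) C w (α ++ v)))
    {k : ℕ} (M : TM k) {code : M.Sym → List Bool} (hcode : Function.Injective code)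
    (hb : code M.blank = []) (E : Decomp) (C : ℝ) :
    Hard L c (fun w α => Q (c * w.length) fun v => ∃ t, AcceptsAt M (w ++ (α ++ v)) t)
      (fun w α => Q (c * w.length) fun v => WithinX M code E c C w (α ++ v) (w ++ (α ++ v))) := by
  obtain ⟨E', C', n₁, h1⟩ := good_within conv hb hcode idLD_is (4 * c + 3) E (c := c) C
  refine (hard_adv hc (h (machT idLD M code) E' C') n₁ (Good' := fun w α => Q (c * w.length)
    fun v => WithinX M code E c C w (α ++ v) (w ++ (α ++ v))) fun w α hw hα =>
    Q_mono fun x u y hx hu hy => h1 w _ hw ?_).mono ?_ fun w _ hw => hw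
  · have h2 : (4 * c + 3) * (w.length + 1) =
        4 * (c * w.length) + 4 * c + 3 * w.length + 3 := by ring
    simp only [List.length_append, hx, hu, hy]
    omega
  · intro w α
    refine Q_mono fun x u y _ _ _ => ?_
    rintro ⟨g, r, h2⟩
    obtain ⟨t, _, ht⟩ := (accepts_iff idLD_is hb hcode w _ g r).1 h2
    exact ⟨t, ht⟩

/-- Hardness for machines with messages gives hardness for Turing machines. -/
theorem ink_hard {c : ℕ} (hc : 0 < c) {L : Set (List Bool)}
    (h : ∀ (A : NBM) (E : Decomp) (C : ℝ),
      Hard L c (fun w α => ∃ g r, A.AcceptsAt w α g r)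
        (fun w α => A.Good E (2 * c + 1) C w α))
    {k : ℕ} (M : TM k) {code : M.Sym → List Bool} (hcode : Function.Injective code)
    (hb : code M.blank = []) (E : Decomp) (C : ℝ) :
    Hard L c (fun w α => ∃ t, AcceptsAt M (w ++ α) t)
      (fun w α => WithinX M code E c C w α (w ++ α)) := by
  obtain ⟨E', C', n₁, h1⟩ := good_within conv hb hcode idLD_is (4 * c + 3) E (c := c) C
  refine (hard_adv hc (h (machT idLD M code) E' C') n₁ (Good' := fun w α =>
    WithinX M code E c C w α (w ++ α)) fun w α hw hα => h1 w _ hw ?_).mono ?_ fun w _ hw => hw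
  · have h2 : (4 * c + 3) * (w.length + 1) =
        4 * (c * w.length) + 4 * c + 3 * w.length + 3 := by ring
    simp only [List.length_append]
    omega
  · rintro w α ⟨g, r, h2⟩
    obtain ⟨t, _, ht⟩ := (accepts_iff idLD_is hb hcode w _ g r).1 h2
    exact ⟨t, ht⟩

end Pool.Agent.Helper31.Ink
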