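import Pool.Agent.Helper81.Sus3.Defs

/-!
# Good computations, for a larger constant
-/

namespace Pool.Agent.Helper31.Ink

open Pool.Agent.Helper65.LinSpace Pool.Agent.Helper78.Mpc Pool.Agent.Helper28.Ram
open Pool.Agent.Helper81.Sus2 (NBM Decomp)

theorem short_le {A : NBM} {E : Decomp} {w y : List Bool} {g : ℕ → Bool} {s a z z' t₀ t : ℕ}
    {D : List Bool} (h : z ≤ z') (h1 : A.Short E w y g s a z t₀ D t) :
    A.Short E w y g s a z' t₀ D t := by
  obtain ⟨d, h2, h3⟩ := h1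
  exact ⟨d, h2.trans h, h3⟩

theorem good_le {A : NBM} {E : Decomp} {c c' : ℕ} {C : ℝ} {w y : List Bool} (h : c ≤ c')
    (hg : A.Good E c C w y) : A.Good E c' C w y := by
  obtain ⟨g, r, s, a, x, hh, z, k, K, τ, D, h1, h2, h3, h4, h5, h6, h7, h8, b1, b2, b3, b4⟩ := hg
  refine ⟨g, r, s, a, x, hh, z, k, K, τ, D, h1, h2, h3, h4, h5, h6, fun i hi => ?_, h8, b1, b2, b3,
    b4.trans (Nat.mul_le_mul_right _ h)⟩
  obtain ⟨p1, p2, p3, p4⟩ := h7 i hi
  refine ⟨p1, p2.trans (Nat.mul_le_mul_right _ h), p3, fun t t' q1 q2 q3 q4 => p4 t t' q1 q2 q3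
    fun u hu hu' hs => q4 u hu hu' (short_le (Nat.mul_le_mul_right _ h) hs)⟩

end Pool.Agent.Helper31.Ink
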