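import Pool.Agent.Helper31.Ink.Mach
import Pool.Agent.Helper31.Ink.Defs
import Pool.Agent.Helper92.RE.SimM
import Pool.Agent.Helper81.RP.Bnd

/-!
# Turing machines on the words `F w y` as machines with messages: the computation
-/

namespace Pool.Agent.Helper31.Ink

open Pool.Agent.Helper65.LinSpace Pool.Agent.Helper78.Mpc Pool.Agent.Helper28.Ram
open Pool.Agent.Helper81.Sus2
open Pool.Agent.Helper92.RE (LD sto pO nO uO vO sto_pos sto_half pO_sto nO_sto uO_sto vO_sto
  ls_sto ls_pO ls_nO ls_uO ls_vO adr ltv ls_adr ls_ltv optL letL letL_eq lett_le lett_none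
  nconf_succ head_st)
open Pool.Agent.Helper81.RP (lett wd wf num_wd wd_num wf_eq hd tl hd_eq tl_eq wd_one wd_cons_false
  tl_read hd_read step_of)
open Pool.Agent.Helper31.TMS (pos sym AcceptsAt bval_bits)
open Pool.Agent.Helper20.TMS (pos_eq run_succ_none run_succ_some)

variable {k : ℕ} {D : LD} {M : TM k} {code : M.Sym → List Bool}

/-! ### The memory -/

variable (code) in
/-- The content of the register with the number `m`. -/
noncomputable def cellC (tape : Fin k → ℤ → M.Sym) (m : ℕ) : List Bool :=
  if h : m.unpair.1 < k then code (tape ⟨m.unpair.1, h⟩ (zag m.unpair.2)) else []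

variable (code) in
/-- The memory if the work tapes are `tape`. -/
noncomputable def memT (w y : List Bool) (tape : Fin k → ℤ → M.Sym) : List Bool → List Bool
  | [] => cellC code tape 0
  | false :: u => wd (1 + lett w[bval u]? + 3 * lett y[bval u]?)
  | true :: u => cellC code tape (num u)

theorem cellC_blank (hb : code M.blank = []) (m : ℕ) :
    cellC code (fun _ _ => M.blank) m = [] := by
  unfold cellC
  split_ifs
  · exact hb
  · rfl

theorem mem0_eq (hb : code M.blank = []) (w y : List Bool) :
    (machT D M code).mem0 w y = memT code w y fun _ _ => M.blank := by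
  funext i
  rcases i with _ | ⟨b, u⟩
  · exact (cellC_blank hb 0).symm
  · cases b
    · rfl
    · exact (cellC_blank hb (num u)).symm

theorem memT_num (w y : List Bool) (tape : Fin k → ℤ → M.Sym) {i : List Bool}
    (hi : i.head? ≠ some false) : memT code w y tape i = cellC code tape (num i / 2) := by
  rcases i with _ | ⟨b, u⟩
  · rfl
  · cases b
    · exact absurd rfl hi
    · show cellC code tape (num u) = cellC code tape ((true.toNat + 2 * num u) / 2)
      rw [Bool.toNat_true, show (1 + 2 * num u) / 2 = num u by omega]

theorem num_odd {i : List Bool} (hi : i.head? ≠ some false) : num i % 2 = 1 := by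
  rcases i with _ | ⟨b', u'⟩
  · rfl
  · cases b'
    · exact absurd rfl hi
    · show (true.toNat + 2 * num u') % 2 = 1
      rw [Bool.toNat_true]
      omega

theorem cellC_pair (tape : Fin k → ℤ → M.Sym) (j : Fin k) (p : ℤ) :
    cellC code tape (Nat.pair j (zig p)) = code (tape j p) := by
  unfold cellC
  rw [dif_pos (by rw [Nat.unpair_pair]; exact j.2)]
  simp only [Nat.unpair_pair, zag_zig]

theorem memT_name (w y : List Bool) (tape : Fin k → ℤ → M.Sym) (j : Fin k) (p : ℤ) :
    memT code w y tape (wd (2 * Nat.pair j (zig p) + 1)) = code (tape j p) := by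
  rw [memT_num w y tape (Pool.Agent.Helper81.RP.head_name _), num_wd (by omega),
    show (2 * Nat.pair j (zig p) + 1) / 2 = Nat.pair j (zig p) by omega, cellC_pair]

theorem memT_letter (w y : List Bool) (tape : Fin k → ℤ → M.Sym) (u : ℕ) :
    num (memT code w y tape (wd (2 * bitsN u))) = lett w[u]? + 3 * lett y[u]? + 1 := by
  rw [wd_cons_false _ (by rw [bitsN_eq]; exact num_pos _), bitsN_eq, wd_num]
  show num (wd (1 + lett w[bval u.bits]? + 3 * lett y[bval u.bits]?)) = _
  rw [bval_bits, num_wd (by omega)]
  ring

theorem tl_half (q c : List Bool) : tl (num (sd q ++ false :: c)) / 2 = num c := by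
  rw [tl_eq]
  show (false.toNat + 2 * num c) / 2 = num c
  rw [Bool.toNat_false]
  omega

/-! ### Steps -/

section steps

variable (w y : List Bool)

theorem msg_sto {f : ℕ} (hf : f ≤ 1) {p : ℕ} (hp : p ≠ k + 2) (n u v : ℕ) :
    (machT D M code).msg (wd (sto f p n u v)) = false := by
  show decide (msgT M (num (wd (sto f p n u v))) = 1) = false
  rw [num_wd (sto_pos _ _ _ _ _)]
  refine decide_eq_false ?_
  unfold msgT eq01
  rw [pO_sto hf, if_neg hp, ifz_zero]
  omega

theorem upd_silent {f : ℕ} (hf : f ≤ 1) {p : ℕ} (hp : p ≠ k + 2) (n u v : ℕ) (i c : List Bool) :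
    (machT D M code).upd (wd (sto f p n u v)) i c = c := by
  unfold NBM.upd
  rw [msg_sto hf hp]
  simp

/-- The computation of the length. -/
theorem stepA (b : Bool) (n : ℕ) (tape : Fin k → ℤ → M.Sym) :
    (machT D M code).step b (wd (sto 0 0 n 0 0), memT code w y tape) =
      (if n < w.length then wd (sto 0 0 (n + 1) 0 0) else wd (sto 0 1 n (ix (fresh M M.start)) 0),
        memT code w y tape) := by
  have h0 : (0 : ℕ) ≤ 1 := by omega
  have haddr : (machT D M code).addr (wd (sto 0 0 n 0 0)) = wd (2 * bitsN n) := by
    refine wf_eq ?_ (by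
      rw [bitsN_eq]
      have := num_pos n.bits
      omega)
    rw [num_wd (sto_pos _ _ _ _ _)]
    unfold addrT
    rw [pO_sto h0, nO_sto h0, ifz_zero]
  have hread : num (memT code w y tape ((machT D M code).addr (wd (sto 0 0 n 0 0)))) =
      lett w[n]? + 3 * lett y[n]? + 1 := by
    rw [haddr, memT_letter]
  have hnext : (machT D M code).next (sd (wd (sto 0 0 n 0 0)) ++
      ((machT D M code).ask (wd (sto 0 0 n 0 0)) && b) ::
        memT code w y tape ((machT D M code).addr (wd (sto 0 0 n 0 0)))) =
      if n < w.length then wd (sto 0 0 (n + 1) 0 0) else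
        wd (sto 0 1 n (ix (fresh M M.start)) 0) := by
    have hask : ((machT D M code).ask (wd (sto 0 0 n 0 0)) && b) = false := rfl
    have hval : nextT D M code (num (sd (wd (sto 0 0 n 0 0)) ++ false ::
        memT code w y tape ((machT D M code).addr (wd (sto 0 0 n 0 0))))) =
        if n < w.length then sto 0 0 (n + 1) 0 0 else sto 0 1 n (ix (fresh M M.start)) 0 := by
      unfold nextT
      rw [hd_read (sto_pos _ _ _ _ _), pO_sto h0, nO_sto h0, ifz_zero, tl_read _ _ _ hread]
      have h1 := lett_le w[n]?
      have e3 : (lett w[n]? + 3 * lett y[n]?) % 3 = lett w[n]? := by omega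
      rw [e3]
      by_cases hn : n < w.length
      · have h2 : lett w[n]? ≠ 0 := fun h => by
          rw [lett_none] at h
          omega
        rw [ifz_ne h2, if_pos hn]
      · rw [lett_none.2 (by omega), ifz_zero, if_neg hn]
    rw [hask]
    by_cases hn : n < w.length
    · rw [if_pos hn] at hval ⊢
      exact wf_eq hval (sto_pos _ _ _ _ _)
    · rw [if_neg hn] at hval ⊢
      exact wf_eq hval (sto_pos _ _ _ _ _)
  rw [step_of hnext]
  refine Prod.ext rfl ?_
  funext i
  by_cases hn : n < w.length
  · simp only [if_pos hn]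
    exact upd_silent h0 (by omega) _ _ _ i _
  · simp only [if_neg hn]
    exact upd_silent h0 (by omega) _ _ _ i _

/-- Reading of a symbol. -/
theorem stepR (hc : Function.Injective code) {f : ℕ} (hf : f ≤ 1) (b : Bool) (j : Fin k)
    (n p : ℕ) (t : Inf M) (h : Fin k → ℤ) (tape : Fin k → ℤ → M.Sym) :
    (machT D M code).step b (wd (sto f (j + 1) n (ix t) (Nat.pair p (hsF h))),
      memT code w y tape) =
      (wd (sto 0 (j + 2) n (ix (ι := Inf M) (t.1, Function.update t.2.1 j (tape j (h j)), t.2.2))
        (Nat.pair p (hsF h))), memT code w y tape) := by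
  have hj := j.2
  have haddr : (machT D M code).addr (wd (sto f (j + 1) n (ix t) (Nat.pair p (hsF h)))) =
      wd (2 * Nat.pair j (zig (h j)) + 1) := by
    refine wf_eq ?_ (by omega)
    rw [num_wd (sto_pos _ _ _ _ _)]
    unfold addrT eq01
    rw [pO_sto hf, ifz_ne (by omega), if_neg (by omega), ifz_zero, Nat.add_sub_cancel,
      selL_eq (g := fun j : Fin k => (j : ℕ)) (fun _ _ h => Fin.ext h) _ (List.mem_finRange j),
      vO_sto hf, Nat.unpair_pair, prj_hsF]
  have hnext : (machT D M code).next (sd (wd (sto f (j + 1) n (ix t) (Nat.pair p (hsF h)))) ++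
      ((machT D M code).ask (wd (sto f (j + 1) n (ix t) (Nat.pair p (hsF h)))) && b) ::
        memT code w y tape ((machT D M code).addr
          (wd (sto f (j + 1) n (ix t) (Nat.pair p (hsF h)))))) =
      wd (sto 0 (j + 2) n (ix (ι := Inf M) (t.1, Function.update t.2.1 j (tape j (h j)), t.2.2))
        (Nat.pair p (hsF h))) := by
    have hask : ((machT D M code).ask (wd (sto f (j + 1) n (ix t) (Nat.pair p (hsF h)))) && b) =
      false := rfl
    rw [haddr, memT_name, hask]
    refine wf_eq ?_ (sto_pos _ _ _ _ _)
    unfold nextT eq01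
    rw [hd_read (sto_pos _ _ _ _ _), pO_sto hf, nO_sto hf, vO_sto hf, ifz_ne (by omega),
      if_neg (by omega), ifz_zero, if_neg (by omega), ifz_zero, Nat.add_sub_cancel,
      selL_eq (g := fun j : Fin k => (j : ℕ)) (fun _ _ h => Fin.ext h) _ (List.mem_finRange j),
      hd_read (sto_pos _ _ _ _ _), uO_sto hf, selT_eq, tl_half, rdT_eq hc]
  rw [step_of hnext]
  refine Prod.ext rfl ?_
  funext i
  exact upd_silent (by omega) (by omega) _ _ _ i _

theorem wrN_eq (t : Inf M) (m c hh : ℕ) (h : Fin k → ℤ) (hh' : hh = hsF h)
    (l : List (Fin k)) : (∀ j ∈ l, m ≠ 2 * Nat.pair j (zig (h j)) + 1) →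
      wrN M code t m c hh l = c := by
  subst hh'
  induction l with
  | nil => exact fun _ => rfl
  | cons j l ih =>
    intro h1
    show ifz (eq01 m (2 * Nat.pair j (prj j (hsF h)) + 1)) (wrN M code t m c (hsF h) l) _ = c
    unfold eq01
    rw [prj_hsF, if_neg (h1 j List.mem_cons_self), ifz_zero]
    exact ih fun j' h' => h1 j' (List.mem_cons_of_mem _ h')

theorem wrN_eq' (t : Inf M) (c : ℕ) (h : Fin k → ℤ) (j : Fin k)
    {l : List (Fin k)} (hl : j ∈ l) :
      wrN M code t (2 * Nat.pair j (zig (h j)) + 1) c (hsF h) l =
        num (code (sym M t.1 t.2.2 t.2.1 j)) := by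
  induction l with
  | nil => simp at hl
  | cons j' l ih =>
    show ifz (eq01 (2 * Nat.pair j (zig (h j)) + 1) (2 * Nat.pair j' (prj j' (hsF h)) + 1))
      (wrN M code t (2 * Nat.pair j (zig (h j)) + 1) c (hsF h) l) _ = _
    rw [prj_hsF]
    by_cases h1 : 2 * Nat.pair j (zig (h j)) + 1 = 2 * Nat.pair j' (zig (h j')) + 1
    · have h0 : Nat.pair (j : ℕ) (zig (h j)) = Nat.pair (j' : ℕ) (zig (h j')) := by omega
      have h2 : (j : ℕ) = j' := (Nat.pair_eq_pair.1 h0).1
      have h3 : j = j' := Fin.ext h2
      subst h3
      unfold eq01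
      rw [if_pos rfl, ifz_ne one_ne_zero]
    · unfold eq01
      rw [if_neg h1, ifz_zero]
      refine ih ?_
      rcases List.mem_cons.1 hl with h2 | h2
      · exact absurd (by rw [h2]) h1
      · exact h2

/-- Reading of a letter. The new state is a message if the step changes a symbol. -/
theorem stepI {F : List Bool → List Bool} (hF : D.Is F) {f : ℕ} (hf : f ≤ 1) (b : Bool)
    (p : ℕ) (t : Inf M) (h : Fin k → ℤ) (tape : Fin k → ℤ → M.Sym)
    (ht : ∀ j, t.2.1 j = tape j (h j)) :
    (machT D M code).step b (wd (sto f (k + 1) w.length (ix t) (Nat.pair p (hsF h))),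
      memT code w y tape) =
      (wd (sto 0 (k + 2) w.length (ix (ι := Inf M) (t.1, t.2.1, inputSym (F w ++ y) p))
        (Nat.pair p (hsF h))), memT code w y fun j =>
          Function.update (tape j) (h j) (sym M t.1 (inputSym (F w ++ y) p) t.2.1 j)) := by
  have h0 : (0 : ℕ) ≤ 1 := by omega
  have haddr : (machT D M code).addr (wd (sto f (k + 1) w.length (ix t)
      (Nat.pair p (hsF h)))) = wd (2 * bitsN (adr D w.length (p - 1))) := by
    refine wf_eq ?_ (by
      rw [bitsN_eq]
      have := num_pos (adr D w.length (p - 1)).bits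
      omega)
    rw [num_wd (sto_pos _ _ _ _ _)]
    unfold addrT eq01
    rw [pO_sto hf, nO_sto hf, vO_sto hf, ifz_ne (by omega), if_pos rfl, ifz_ne one_ne_zero,
      Nat.unpair_pair]
  have hnext : (machT D M code).next (sd (wd (sto f (k + 1) w.length (ix t)
      (Nat.pair p (hsF h)))) ++
      ((machT D M code).ask (wd (sto f (k + 1) w.length (ix t) (Nat.pair p (hsF h)))) && b) ::
        memT code w y tape ((machT D M code).addr
          (wd (sto f (k + 1) w.length (ix t) (Nat.pair p (hsF h)))))) =
      wd (sto 0 (k + 2) w.length (ix (ι := Inf M) (t.1, t.2.1, inputSym (F w ++ y) p))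
        (Nat.pair p (hsF h))) := by
    have hask : ((machT D M code).ask (wd (sto f (k + 1) w.length (ix t)
      (Nat.pair p (hsF h)))) && b) = false := rfl
    rw [haddr, hask]
    refine wf_eq ?_ (sto_pos _ _ _ _ _)
    unfold nextT eq01
    rw [hd_read (sto_pos _ _ _ _ _), pO_sto hf, nO_sto hf, vO_sto hf, uO_sto hf,
      ifz_ne (by omega), if_pos rfl, ifz_ne one_ne_zero, selT_eq, hd_read (sto_pos _ _ _ _ _),
      nO_sto hf, vO_sto hf, Nat.unpair_pair, tl_read _ _ _ (memT_letter w y tape _), ltT_eq,
      letL_eq hF]
  rw [step_of hnext]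
  refine Prod.ext rfl ?_
  funext i
  show (machT D M code).upd (wd (sto 0 (k + 2) w.length (ix (ι := Inf M)
    (t.1, t.2.1, inputSym (F w ++ y) p)) (Nat.pair p (hsF h)))) i (memT code w y tape i) = _
  set a := inputSym (F w ++ y) p with ha
  set t' : Inf M := (t.1, t.2.1, a) with ht'
  have hmsg : (machT D M code).msg (wd (sto 0 (k + 2) w.length (ix t') (Nat.pair p (hsF h)))) =
      decide (chg M t' = 1) := by
    show decide (msgT M (num (wd (sto 0 (k + 2) w.length (ix t') (Nat.pair p (hsF h))))) = 1) = _
    rw [num_wd (sto_pos _ _ _ _ _)]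
    unfold msgT eq01
    rw [pO_sto h0, uO_sto h0, if_pos rfl, ifz_ne one_ne_zero, selT_eq]
  by_cases hi : i.head? = some false
  · unfold NBM.upd
    rw [if_neg (by simp [hi])]
    rcases i with _ | ⟨b', u'⟩
    · simp at hi
    · simp only [List.head?_cons, Option.some.injEq] at hi
      subst hi
      rfl
  · show _ = memT code w y (fun j => Function.update (tape j) (h j) (sym M t.1 a t.2.1 j)) i
    rw [memT_num w y _ hi, memT_num w y _ hi]
    set m := num i / 2 with hm
    have hodd := num_odd hi
    have him : num i = 2 * m + 1 := by omega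
    by_cases hch : chg M t' = 1
    · have hm1 : (machT D M code).msg (wd (sto 0 (k + 2) w.length (ix t')
          (Nat.pair p (hsF h)))) = true := by
        rw [hmsg]
        exact decide_eq_true hch
      have hwrite : ∀ c : List Bool, writeT M code (num (sd (wd (sto 0 (k + 2) w.length (ix t')
          (Nat.pair p (hsF h)))) ++ (sd i ++ c))) =
            wrN M code t' (num i) (num c) (hsF h) (List.finRange k) := by
        intro c
        unfold writeT
        rw [hd_read (sto_pos _ _ _ _ _), uO_sto h0, selT_eq, tl_eq, hd_eq, tl_eq,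
          hd_read (sto_pos _ _ _ _ _), vO_sto h0, Nat.unpair_pair]
      have hupd : (machT D M code).upd (wd (sto 0 (k + 2) w.length (ix t')
          (Nat.pair p (hsF h)))) i (cellC code tape m) = wf (writeT M code)
            (sd (wd (sto 0 (k + 2) w.length (ix t') (Nat.pair p (hsF h)))) ++
              (sd i ++ cellC code tape m)) := by
        unfold NBM.upd
        rw [if_pos ⟨hm1, hi⟩]
        rfl
      rw [hupd]
      by_cases hcell : ∃ j : Fin k, m = Nat.pair j (zig (h j))
      · obtain ⟨j, hj⟩ := hcell
        have h1 : wf (writeT M code) (sd (wd (sto 0 (k + 2) w.length (ix t')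
            (Nat.pair p (hsF h)))) ++ (sd i ++ cellC code tape m)) =
            wd (num (code (sym M t.1 a t.2.1 j))) := by
          refine wf_eq ?_ (num_pos _)
          rw [hwrite, him, hj, wrN_eq' t' _ h j (List.mem_finRange j)]
        rw [h1, wd_num, hj, cellC_pair, Function.update_self]
      · have h1 : wf (writeT M code) (sd (wd (sto 0 (k + 2) w.length (ix t')
            (Nat.pair p (hsF h)))) ++ (sd i ++ cellC code tape m)) =
            wd (num (cellC code tape m)) := by
          refine wf_eq ?_ (num_pos _)
          rw [hwrite, wrN_eq t' _ _ _ h rfl]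
          intro j _ h2
          exact hcell ⟨j, by omega⟩
        rw [h1, wd_num]
        unfold cellC
        by_cases h2 : m.unpair.1 < k
        · rw [dif_pos h2, dif_pos h2]
          beta_reduce
          rw [Function.update_of_ne]
          intro h3
          refine hcell ⟨⟨m.unpair.1, h2⟩, ?_⟩
          rw [← h3, zig_zag]
          exact (Nat.pair_unpair m).symm
        · rw [dif_neg h2, dif_neg h2]
    · have hm1 : (machT D M code).msg (wd (sto 0 (k + 2) w.length (ix t')
          (Nat.pair p (hsF h)))) = false := by
        rw [hmsg]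
        exact decide_eq_false hch
      have hupd : (machT D M code).upd (wd (sto 0 (k + 2) w.length (ix t')
          (Nat.pair p (hsF h)))) i (cellC code tape m) = cellC code tape m := by
        unfold NBM.upd
        rw [if_neg (by rw [hm1]; simp)]
      rw [hupd]
      have hsame : ∀ j, Function.update (tape j) (h j) (sym M t.1 a t.2.1 j) = tape j := by
        intro j
        have h2 : sym M t'.1 t'.2.2 t'.2.1 j = t'.2.1 j := by
          by_contra h3
          apply hch
          unfold chg
          rw [if_pos ⟨j, h3⟩]
        have h3 : sym M t.1 a t.2.1 j = tape j (h j) := by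
          rw [← ht j]
          exact h2
        rw [h3, Function.update_eq_self]
      rw [show (fun j => Function.update (tape j) (h j) (sym M t.1 a t.2.1 j)) = tape from
        funext hsame]

/-- The end of a step. -/
theorem stepN (b : Bool) (n q : ℕ) (t : Inf M) (tape : Fin k → ℤ → M.Sym) :
    (machT D M code).step b (wd (sto 0 (k + 2) n (ix t) q), memT code w y tape) =
      (wd (resN M t n q), memT code w y tape) := by
  have h0 : (0 : ℕ) ≤ 1 := by omega
  have hres : ∃ f ≤ 1, ∃ u v, resN M t n q = sto f 1 n u v := by
    classical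
    unfold resN
    cases hs : M.step t.1 t.2.2 t.2.1 with
    | none =>
      refine ⟨if t.1 ∈ M.accept then 1 else 0, ?_, _, _, rfl⟩
      split_ifs <;> omega
    | some x => exact ⟨0, by omega, _, _, rfl⟩
  have hpos : 0 < resN M t n q := by
    obtain ⟨f, _, u, v, h1⟩ := hres
    rw [h1]
    exact sto_pos _ _ _ _ _
  have hnext : (machT D M code).next (sd (wd (sto 0 (k + 2) n (ix t) q)) ++
      ((machT D M code).ask (wd (sto 0 (k + 2) n (ix t) q)) && b) ::
        memT code w y tape ((machT D M code).addr (wd (sto 0 (k + 2) n (ix t) q)))) =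
      wd (resN M t n q) := by
    have hask : ((machT D M code).ask (wd (sto 0 (k + 2) n (ix t) q)) && b) = false := rfl
    rw [hask]
    refine wf_eq ?_ hpos
    unfold nextT eq01
    rw [hd_read (sto_pos _ _ _ _ _), pO_sto h0, nO_sto h0, vO_sto h0, uO_sto h0,
      ifz_ne (by omega), if_neg (by omega), ifz_zero, if_pos rfl, ifz_ne one_ne_zero, selT_eq,
      hd_read (sto_pos _ _ _ _ _), nO_sto h0, vO_sto h0]
  rw [step_of hnext]
  refine Prod.ext rfl ?_
  funext i
  obtain ⟨f, hf, u, v, h1⟩ := hres
  show (machT D M code).upd (wd (resN M t n q)) i _ = _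
  rw [h1]
  exact upd_silent hf (by omega) _ _ _ i _

end steps

/-! ### The computation -/

/-- The computation of the length. -/
theorem conf_machA (hb : code M.blank = []) (w y : List Bool) (g : ℕ → Bool) {t : ℕ}
    (ht : t ≤ w.length) :
    (machT D M code).conf w y g t = (wd (sto 0 0 t 0 0), memT code w y fun _ _ => M.blank) := by
  induction t with
  | zero =>
    show ((machT D M code).start, (machT D M code).mem0 w y) = _
    rw [mem0_eq hb]
    rfl
  | succ t ih => rw [nconf_succ, ih (by omega), stepA, if_pos (by omega)]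

/-- The symbols which were read on the tapes before the tape `j`. -/
def sJ (M : TM k) (c : M.Cfg) (j : ℕ) : Fin k → M.Sym :=
  fun i => if (i : ℕ) < j then c.tape i (c.head i) else M.blank

theorem sJ_succ (M : TM k) (c : M.Cfg) (j : Fin k) :
    Function.update (sJ M c j) j (c.tape j (c.head j)) = sJ M c (j + 1) := by
  funext i
  unfold sJ
  by_cases h : i = j
  · subst h
    rw [Function.update_self, if_pos (by omega)]
  · rw [Function.update_of_ne h]
    have h1 : (i : ℕ) ≠ j := fun h' => h (Fin.ext h')
    by_cases h2 : (i : ℕ) < j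
    · rw [if_pos h2, if_pos (by omega)]
    · rw [if_neg h2, if_neg (by omega)]

theorem sJ_all (M : TM k) (c : M.Cfg) : sJ M c k = fun i => c.tape i (c.head i) := by
  funext i
  unfold sJ
  rw [if_pos i.2]

theorem sJ_zero (M : TM k) (c : M.Cfg) : sJ M c 0 = fun _ => M.blank := by
  funext i
  unfold sJ
  rw [if_neg (by omega)]

/-- The tapes after a step. -/
theorem tape_succ (M : TM k) (x : List Bool) (t : ℕ) :
    (M.run x (t + 1)).tape = fun j => Function.update ((M.run x t).tape j) ((M.run x t).head j)
      (sym M (M.run x t).state (inputSym x (M.run x t).inp)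
        (fun i => (M.run x t).tape i ((M.run x t).head i)) j) := by
  cases hs : M.step (M.run x t).state (inputSym x (M.run x t).inp)
      (fun i => (M.run x t).tape i ((M.run x t).head i)) with
  | none =>
    obtain ⟨hrun, -⟩ := run_succ_none (M := M) (w := x) (t := t) hs
    rw [hrun]
    funext j
    have h1 : sym M (M.run x t).state (inputSym x (M.run x t).inp)
        (fun i => (M.run x t).tape i ((M.run x t).head i)) j =
          (M.run x t).tape j ((M.run x t).head j) := by
      unfold sym
      rw [hs]
    rw [h1, Function.update_eq_self]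
  | some X =>
    obtain ⟨hrun, -⟩ := run_succ_some (M := M) (w := x) (t := t) hs
    rw [hrun]
    funext j
    have h1 : sym M (M.run x t).state (inputSym x (M.run x t).inp)
        (fun i => (M.run x t).tape i ((M.run x t).head i)) j = (X.2.2 j).1 := by
      unfold sym
      rw [hs]
    rw [h1]

/-- A step changes a symbol if it writes another symbol. -/
theorem changes_iff (M : TM k) (x : List Bool) (t : ℕ) :
    Changes M x t ↔ chg M ((M.run x t).state, (fun i => (M.run x t).tape i ((M.run x t).head i)),
      inputSym x (M.run x t).inp) = 1 := by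
  unfold Changes chg
  rw [tape_succ]
  constructor
  · intro h
    rw [if_pos]
    by_contra hcon
    apply h
    funext j
    have h1 : sym M (M.run x t).state (inputSym x (M.run x t).inp)
        (fun i => (M.run x t).tape i ((M.run x t).head i)) j =
          (M.run x t).tape j ((M.run x t).head j) := by
      by_contra h2
      exact hcon ⟨j, h2⟩
    rw [h1, Function.update_eq_self]
  · intro h h1
    have h2 : ∃ j, sym M (M.run x t).state (inputSym x (M.run x t).inp)
        (fun i => (M.run x t).tape i ((M.run x t).head i)) j ≠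
          (M.run x t).tape j ((M.run x t).head j) := by
      by_contra hcon
      rw [if_neg hcon] at h
      omega
    obtain ⟨j, hj⟩ := h2
    apply hj
    have h3 := congrFun (congrFun h1 j) ((M.run x t).head j)
    beta_reduce at h3
    rwa [Function.update_self] at h3

section conf

variable {F : List Bool → List Bool}

/-- The configuration of the machine with messages at the start of the simulation of a step. -/
def At (D : LD) (M : TM k) (code : M.Sym → List Bool) (w y x : List Bool) (g : ℕ → Bool)
    (t : ℕ) : Prop :=
  ∃ f ≤ 1, (machT D M code).conf w y g (w.length + 1 + (k + 2) * t) =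
    (wd (sto f 1 w.length (ix (fresh M (M.run x t).state))
      (Nat.pair (M.run x t).inp (hsF (M.run x t).head))), memT code w y (M.run x t).tape) ∧
    (f = 1 ↔ ∃ u, t = u + 1 ∧ AcceptsAt M x u)

/-- Reading of the symbols. -/
theorem conf_read (hc : Function.Injective code) {w y x : List Bool} {g : ℕ → Bool} {t : ℕ}
    (h : At D M code w y x g t) {j : ℕ} (hj : j ≤ k) :
    ∃ f ≤ 1, (f = 1 → j = 0) ∧
      (machT D M code).conf w y g (w.length + 1 + (k + 2) * t + j) =
    (wd (sto f (j + 1) w.length (ix (ι := Inf M) ((M.run x t).state, sJ M (M.run x t) j, none))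
      (Nat.pair (M.run x t).inp (hsF (M.run x t).head))), memT code w y (M.run x t).tape) := by
  induction j with
  | zero =>
    obtain ⟨f, hf, h1, -⟩ := h
    refine ⟨f, hf, fun _ => rfl, ?_⟩
    rw [sJ_zero]
    exact h1
  | succ j ih =>
    obtain ⟨f, hf, -, h1⟩ := ih (by omega)
    refine ⟨0, by omega, by omega, ?_⟩
    rw [← add_assoc, nconf_succ, h1]
    have h2 := stepR (D := D) w y hc hf (g (w.length + 1 + (k + 2) * t + j)) ⟨j, by omega⟩
      w.length (M.run x t).inp ((M.run x t).state, sJ M (M.run x t) j, none) (M.run x t).head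
      (M.run x t).tape
    have h3 := sJ_succ M (M.run x t) ⟨j, by omega⟩
    simp only at h2 h3
    rw [h3] at h2
    exact h2

/-- The state which is a message if the step changes a symbol. -/
theorem conf_msg (hF : D.Is F) (hc : Function.Injective code) {w y : List Bool} {g : ℕ → Bool}
    {t : ℕ} (h : At D M code w y (F w ++ y) g t) :
    (machT D M code).conf w y g (w.length + 1 + (k + 2) * t + (k + 1)) =
    (wd (sto 0 (k + 2) w.length (ix (ι := Inf M) ((M.run (F w ++ y) t).state,
      (fun i => (M.run (F w ++ y) t).tape i ((M.run (F w ++ y) t).head i)),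
        inputSym (F w ++ y) (M.run (F w ++ y) t).inp))
      (Nat.pair (M.run (F w ++ y) t).inp (hsF (M.run (F w ++ y) t).head))),
      memT code w y (M.run (F w ++ y) (t + 1)).tape) := by
  obtain ⟨f, hf, -, h1⟩ := conf_read hc h le_rfl
  rw [← add_assoc, nconf_succ, h1, sJ_all]
  have h2 := stepI (M := M) (code := code) w y hF hf (g (w.length + 1 + (k + 2) * t + k))
    (M.run (F w ++ y) t).inp ((M.run (F w ++ y) t).state,
      (fun i => (M.run (F w ++ y) t).tape i ((M.run (F w ++ y) t).head i)), none)
    (M.run (F w ++ y) t).head (M.run (F w ++ y) t).tape (fun _ => rfl)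
  rw [h2, tape_succ]

/-- **The simulation.** -/
theorem at_all (hF : D.Is F) (hb : code M.blank = []) (hc : Function.Injective code)
    (w y : List Bool) (g : ℕ → Bool) (t : ℕ) : At D M code w y (F w ++ y) g t := by
  classical
  induction t with
  | zero =>
    refine ⟨0, by omega, ?_, ?_⟩
    · rw [mul_zero, add_zero, nconf_succ, conf_machA hb w y g le_rfl, stepA, if_neg (by omega)]
      have h1 : hsF (fun _ : Fin k => (0 : ℤ)) = 0 := by
        unfold hsF
        have : (List.finRange k).map (fun _ => zig 0) = List.replicate k 0 := by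
          rw [List.map_const', List.length_finRange]
          rfl
        rw [this, hsL_zero]
      show _ = (wd (sto 0 1 w.length (ix (fresh M M.start))
        (Nat.pair 0 (hsF (fun _ : Fin k => (0 : ℤ))))), memT code w y fun _ _ => M.blank)
      rw [h1]
      rfl
    · simp
  | succ t ih =>
    have h1 := conf_msg hF hc ih
    have hp : (M.run (F w ++ y) t).inp ≤ (F w ++ y).length + 1 :=
      Pool.Agent.Helper20.TMS.inp_le M (F w ++ y) t
    have e1 : w.length + 1 + (k + 2) * (t + 1) = w.length + 1 + (k + 2) * t + (k + 1) + 1 := by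
      ring
    unfold At
    rw [e1, nconf_succ, h1, stepN]
    set x := F w ++ y with hx
    cases hs : M.step (M.run x t).state (inputSym x (M.run x t).inp)
        (fun i => (M.run x t).tape i ((M.run x t).head i)) with
    | none =>
      obtain ⟨hrun, hnone⟩ := run_succ_none (M := M) (w := x) (t := t) hs
      refine ⟨if (M.run x t).state ∈ M.accept then 1 else 0, by split_ifs <;> omega, ?_, ?_⟩
      · rw [hrun]
        unfold resN
        simp only [hs]
      · constructor
        · intro h
          refine ⟨t, rfl, hnone, ?_⟩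
          by_contra h2
          rw [if_neg h2] at h
          omega
        · rintro ⟨u, hu, -, h⟩
          obtain rfl : t = u := by omega
          rw [if_pos h]
    | some X =>
      obtain ⟨hrun, hnone⟩ := run_succ_some (M := M) (w := x) (t := t) hs
      refine ⟨0, by omega, ?_, ?_⟩
      · have h3 : resN M ((M.run x t).state, (fun i => (M.run x t).tape i ((M.run x t).head i)),
            inputSym x (M.run x t).inp) w.length
            (Nat.pair (M.run x t).inp (hsF (M.run x t).head)) =
          sto 0 1 w.length (ix (fresh M X.1)) (Nat.pair (inputMove x X.2.1 (M.run x t).inp)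
            (hsF fun j => (M.run x t).head j + (X.2.2 j).2.toInt)) := by
          unfold resN
          simp only [hs, Nat.unpair_pair, pos_eq x (M.run x t).inp hp, mvH_hsF]
        rw [h3, hrun]
      · constructor
        · intro h
          omega
        · rintro ⟨u, hu, h, -⟩
          obtain rfl : t = u := by omega
          exact absurd h hnone

end conf

end Pool.Agent.Helper31.Ink
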